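import Mathlib

/-!
# Forests: linear independence and leaves

A family of pairs `(a e, b e)` of vertices is a forest if every nonempty finite subfamily has a pair
with two different entries one of which occurs in no other pair of the subfamily.  This is so if the
vectors `[a e] - [b e]` are linearly independent.
-/

set_option autoImplicit false

namespace Pool.Agent.Q172.LT

open Finset

/-- The graph with vertex set `V` whose edges join `a e` and `b e` (`e : E`) is a forest: every
nonempty finite set `F` of edges contains an edge `e` which is not a loop and an end `v` of which is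
an end of no other edge of `F`. -/
def IsForest {V E : Type} (a b : E → V) : Prop :=
  ∀ F : Finset E, F.Nonempty → ∃ e ∈ F, a e ≠ b e ∧ ∃ v, (v = a e ∨ v = b e) ∧
    ∀ e' ∈ F, e' ≠ e → a e' ≠ v ∧ b e' ≠ v

/-- The vector `[x] - [y]`. -/
noncomputable def row {V : Type} (x y : V) : V →₀ ℚ := Finsupp.single x 1 - Finsupp.single y 1

/-- The vectors of a finite set of edges. -/
noncomputable def rows {V E : Type} (a b : E → V) (F : Finset E) : F → (V →₀ ℚ) :=
  fun e => row (a e) (b e)

theorem row_ne {V : Type} {x y : V} (h : row x y ≠ 0) : x ≠ y := by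
  rintro rfl
  exact h (by simp [row])

/-- Linearly independent families are forests. -/
theorem isForest_of_indep {V E : Type} (a b : E → V)
    (h : ∀ F : Finset E, LinearIndependent ℚ (rows a b F)) : IsForest a b := by
  classical
  intro F hF
  have hind := h F
  have hloop : ∀ e ∈ F, a e ≠ b e := by
    intro e he
    exact row_ne (hind.ne_zero (⟨e, he⟩ : F))
  by_contra hcon
  push Not at hcon
  -- every vertex of an edge of `F` has degree at least two
  let W : Finset V := F.image a ∪ F.image b
  let D : Finset (E × Bool) := F ×ˢ univ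
  let φ : E × Bool → V := fun d => if d.2 then a d.1 else b d.1
  have hmap : ∀ d ∈ D, φ d ∈ W := by
    rintro ⟨e, i⟩ hd
    have he : e ∈ F := (mem_product.1 hd).1
    cases i
    · exact mem_union_right _ (mem_image_of_mem _ he)
    · exact mem_union_left _ (mem_image_of_mem _ he)
  have hdeg : ∀ v ∈ W, 2 ≤ #{d ∈ D | φ d = v} := by
    intro v hv
    have h1 : ∃ e ∈ F, v = a e ∨ v = b e := by
      rcases mem_union.1 hv with h | h
      · obtain ⟨e, he, rfl⟩ := mem_image.1 h
        exact ⟨e, he, Or.inl rfl⟩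
      · obtain ⟨e, he, rfl⟩ := mem_image.1 h
        exact ⟨e, he, Or.inr rfl⟩
    obtain ⟨e, he, hve⟩ := h1
    obtain ⟨e', he', hne, hee⟩ := hcon e he (hloop e he) v hve
    have h2 : v = a e' ∨ v = b e' := by
      by_contra h3
      push Not at h3
      exact h3.2 (hee (fun h4 => h3.1 h4.symm)).symm
    have key : ∀ f ∈ F, v = a f ∨ v = b f → ∃ i : Bool, (f, i) ∈ D ∧ φ (f, i) = v := by
      rintro f hf (h5 | h5)
      · exact ⟨true, by simp [D, hf], by simp [φ, h5]⟩
      · exact ⟨false, by simp [D, hf], by simp [φ, h5]⟩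
    obtain ⟨i, hi, hi'⟩ := key e he hve
    obtain ⟨j, hj, hj'⟩ := key e' he' h2
    have hsub : ({(e, i), (e', j)} : Finset (E × Bool)) ⊆ {d ∈ D | φ d = v} := by
      intro d hd
      rcases mem_insert.1 hd with rfl | hd
      · exact mem_filter.2 ⟨hi, hi'⟩
      · rw [mem_singleton] at hd
        subst hd
        exact mem_filter.2 ⟨hj, hj'⟩
    have hcard : #({(e, i), (e', j)} : Finset (E × Bool)) = 2 := by
      rw [card_pair]
      intro h6
      exact hne (congrArg Prod.fst h6).symm
    rw [← hcard]
    exact card_le_card hsub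
  have hsum : 2 * #W ≤ 2 * #F := by
    have h1 : #D = ∑ v ∈ W, #{d ∈ D | φ d = v} := card_eq_sum_card_fiberwise hmap
    have h2 : #D = 2 * #F := by
      simp [D, card_product, mul_comm]
    have h3 : ∑ _v ∈ W, 2 ≤ ∑ v ∈ W, #{d ∈ D | φ d = v} := sum_le_sum hdeg
    rw [sum_const, smul_eq_mul] at h3
    omega
  -- the rank is smaller than the number of the vertices
  obtain ⟨e₀, he₀⟩ := hF
  have hw₀ : a e₀ ∈ W := mem_union_left _ (mem_image_of_mem _ he₀)
  let B : Finset (V →₀ ℚ) := (W.erase (a e₀)).image fun v => row v (a e₀)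
  have hspan : Set.range (rows a b F) ⊆ Submodule.span ℚ ((B : Set (V →₀ ℚ))) := by
    rintro _ ⟨⟨e, he⟩, rfl⟩
    have hv : ∀ v ∈ W, row v (a e₀) ∈ Submodule.span ℚ ((B : Set (V →₀ ℚ))) := by
      intro v hv
      by_cases hva : v = a e₀
      · have : row v (a e₀) = 0 := by simp [row, hva]
        rw [this]
        exact Submodule.zero_mem _
      · refine Submodule.subset_span ?_
        exact mem_coe.2 (mem_image.2 ⟨v, mem_erase.2 ⟨hva, hv⟩, rfl⟩)
    have h1 := hv (a e) (mem_union_left _ (mem_image_of_mem _ he))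
    have h2 := hv (b e) (mem_union_right _ (mem_image_of_mem _ he))
    have h3 : rows a b F ⟨e, he⟩ = row (a e) (a e₀) - row (b e) (a e₀) := by
      simp only [rows, row]
      abel
    show rows a b F ⟨e, he⟩ ∈ Submodule.span ℚ ((B : Set (V →₀ ℚ)))
    rw [h3]
    exact Submodule.sub_mem _ h1 h2
  have h4 := linearIndependent_le_span' (rows a b F) hind (B : Set (V →₀ ℚ)) hspan
  have h5 : #F ≤ #B := by
    have h6 : (Fintype.card (B : Set (V →₀ ℚ))) = #B := by
      simp
    rw [h6] at h4
    have h7 : Cardinal.mk F = (#F : Cardinal) := by simp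
    rw [h7] at h4
    exact_mod_cast h4
  have h6 : #B ≤ #W - 1 := by
    refine card_image_le.trans ?_
    rw [card_erase_of_mem hw₀]
  have h7 : 0 < #W := card_pos.2 ⟨_, hw₀⟩
  omega

theorem IsForest.symm {V E : Type} {a b : E → V} (h : IsForest a b) : IsForest b a := by
  intro F hF
  obtain ⟨e, he, hne, v, hv, h1⟩ := h F hF
  exact ⟨e, he, hne.symm, v, hv.symm, fun e' he' h' => (h1 e' he' h').symm⟩

/-- Subforests. -/
theorem IsForest.comap {V E V' E' : Type} {a b : E → V} (h : IsForest a b) {a' b' : E' → V'}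
    (φ : E' → E) (hφ : Function.Injective φ) (ν : V' → V) (ha : ∀ e, ν (a' e) = a (φ e))
    (hb : ∀ e, ν (b' e) = b (φ e)) : IsForest a' b' := by
  classical
  intro F hF
  obtain ⟨_, he, hne, v, hv, h1⟩ := h (F.image φ) (hF.image φ)
  obtain ⟨e, he', rfl⟩ := mem_image.1 he
  have h2 : ∀ w, ν w = v → ∀ e' ∈ F, e' ≠ e → a' e' ≠ w ∧ b' e' ≠ w := by
    intro w hw e' he'' hne'
    obtain ⟨h3, h4⟩ := h1 (φ e') (mem_image_of_mem _ he'') (fun h => hne' (hφ h))
    constructor
    · rintro rfl
      exact h3 (by rw [← ha, hw])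
    · rintro rfl
      exact h4 (by rw [← hb, hw])
  refine ⟨e, he', ?_, ?_⟩
  · intro h3
    apply hne
    rw [← ha, ← hb, h3]
  · rcases hv with hv | hv
    · exact ⟨a' e, Or.inl rfl, h2 _ (by rw [ha, hv])⟩
    · exact ⟨b' e, Or.inr rfl, h2 _ (by rw [hb, hv])⟩

end Pool.Agent.Q172.LT
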