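import Pool.Agent.TH625.LOG.Main
import Pool.Agent.Q172.LT.Leaf

/-!
# Left and right forests: free sides, asphericity, local indicability
-/

set_option autoImplicit false

namespace Pool.Agent.Q172.LT

open Pool.Agent.TH625.LOG

variable {V E : Type}

/-- The homomorphism onto the integers which maps all generators to `1`. -/
noncomputable def degHom (L : LOG V E) : L.G →* Multiplicative ℤ :=
  PresentedGroup.toGroup (f := fun _ : V => Multiplicative.ofAdd (1 : ℤ)) (by
    rintro _ ⟨e, rfl⟩
    unfold LOG.rel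
    simp only [map_mul, map_inv, FreeGroup.lift_apply_of]
    group)

theorem degHom_gen (L : LOG V E) (v : V) : degHom L (L.gen v) = Multiplicative.ofAdd 1 :=
  PresentedGroup.toGroup.of _

/-- the level of the initial point of a side -/
def lev : Fin 4 → ℤ := ![0, 1, 0, 1]

theorem degHom_sg (L : LOG V E) (e : E) (k : Fin 4) :
    degHom L (L.sg e k) = Multiplicative.ofAdd (lev k) := by
  fin_cases k
  · show degHom L 1 = _
    rw [map_one]; rfl
  · exact degHom_gen L _
  · show degHom L 1 = _
    rw [map_one]; rfl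
  · exact degHom_gen L _

theorem sideA_eq (L : LOG V E) (c d : E × Multiplicative ℤ) (k l : Fin 4)
    (h : L.sideA (degHom L) c k = L.sideA (degHom L) d l) :
    L.sv c.1 k = L.sv d.1 l ∧ c.2.toAdd + lev k = d.2.toAdd + lev l := by
  unfold LOG.sideA at h
  rw [Prod.mk.injEq, degHom_sg, degHom_sg] at h
  exact ⟨h.1, congrArg Multiplicative.toAdd h.2⟩

theorem lev_cases (k : Fin 4) : (lev k = 0 ∧ (k = 0 ∨ k = 2)) ∨ (lev k = 1 ∧ (k = 1 ∨ k = 3)) := by
  fin_cases k <;> simp [lev]

theorem sv0 (L : LOG V E) (e : E) : L.sv e 0 = L.ini e := rfl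
theorem sv1 (L : LOG V E) (e : E) : L.sv e 1 = L.lab e := rfl
theorem sv2 (L : LOG V E) (e : E) : L.sv e 2 = L.lab e := rfl
theorem sv3 (L : LOG V E) (e : E) : L.sv e 3 = L.ter e := rfl

/-- **Left forests have free sides**: at the lowest level. -/
theorem freeSidesA_left (L : LOG V E) (h : IsForest L.ini L.lab) : L.FreeSidesA (degHom L) := by
  classical
  intro S hS
  obtain ⟨⟨e₀, m⟩, hd₀, hmin⟩ := S.exists_min_image (fun d => d.2.toAdd) hS
  obtain ⟨e, he, hne, v, hv, hleaf⟩ := h ((S.filter fun d => d.2 = m).image Prod.fst)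
    ⟨e₀, Finset.mem_image.2 ⟨(e₀, m), Finset.mem_filter.2 ⟨hd₀, rfl⟩, rfl⟩⟩
  obtain ⟨⟨e', m'⟩, hd, rfl⟩ := Finset.mem_image.1 he
  obtain ⟨hd2, hm'⟩ := Finset.mem_filter.1 hd
  simp only at hm' hne hv hleaf
  subst hm'
  have key : ∀ k : Fin 4, (k = 0 ∨ k = 2) → L.sv e' k = v →
      ∀ d' ∈ S, ∀ k' : Fin 4, L.sideA (degHom L) d' k' = L.sideA (degHom L) (e', m') k →
        d' = (e', m') ∧ k' = k := by
    rintro k hk hkv ⟨f, n⟩ hf k' hs
    obtain ⟨h1, h2⟩ := sideA_eq L _ _ _ _ hs
    have hlk : lev k = 0 := by rcases hk with rfl | rfl <;> rfl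
    simp only at h1 h2
    have h3 := hmin _ hf
    simp only at h3
    rcases lev_cases k' with ⟨h4, h5⟩ | ⟨h4, h5⟩
    · have h6 : n = m' := by
        apply Multiplicative.toAdd.injective
        omega
      subst h6
      have h7 : f ∈ (S.filter fun d => d.2 = n).image Prod.fst :=
        Finset.mem_image.2 ⟨(f, n), Finset.mem_filter.2 ⟨hf, rfl⟩, rfl⟩
      have h8 : L.ini f = v ∨ L.lab f = v := by
        rcases h5 with rfl | rfl
        · exact Or.inl (by rw [← hkv, ← h1]; rfl)
        · exact Or.inr (by rw [← hkv, ← h1]; rfl)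
      have h9 : f = e' := by
        by_contra h10
        obtain ⟨h11, h12⟩ := hleaf f h7 h10
        rcases h8 with h8 | h8
        · exact h11 h8
        · exact h12 h8
      subst h9
      refine ⟨rfl, ?_⟩
      rcases hk with rfl | rfl <;> rcases h5 with rfl | rfl
      · rfl
      · exact absurd h1 (fun h => hne h.symm)
      · exact absurd h1 hne
      · rfl
    · omega
  rcases hv with hv | hv
  · exact ⟨(e', m'), hd2, 0, key 0 (Or.inl rfl) hv.symm⟩
  · exact ⟨(e', m'), hd2, 2, key 2 (Or.inr rfl) hv.symm⟩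

/-- **Right forests have free sides**: at the highest level. -/
theorem freeSidesA_right (L : LOG V E) (h : IsForest L.ter L.lab) : L.FreeSidesA (degHom L) := by
  classical
  intro S hS
  obtain ⟨⟨e₀, m⟩, hd₀, hmin⟩ := S.exists_max_image (fun d => d.2.toAdd) hS
  obtain ⟨e, he, hne, v, hv, hleaf⟩ := h ((S.filter fun d => d.2 = m).image Prod.fst)
    ⟨e₀, Finset.mem_image.2 ⟨(e₀, m), Finset.mem_filter.2 ⟨hd₀, rfl⟩, rfl⟩⟩
  obtain ⟨⟨e', m'⟩, hd, rfl⟩ := Finset.mem_image.1 he
  obtain ⟨hd2, hm'⟩ := Finset.mem_filter.1 hd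
  simp only at hm' hne hv hleaf
  subst hm'
  have key : ∀ k : Fin 4, (k = 3 ∨ k = 1) → L.sv e' k = v →
      ∀ d' ∈ S, ∀ k' : Fin 4, L.sideA (degHom L) d' k' = L.sideA (degHom L) (e', m') k →
        d' = (e', m') ∧ k' = k := by
    rintro k hk hkv ⟨f, n⟩ hf k' hs
    obtain ⟨h1, h2⟩ := sideA_eq L _ _ _ _ hs
    have hlk : lev k = 1 := by rcases hk with rfl | rfl <;> rfl
    simp only at h1 h2
    have h3 := hmin _ hf
    simp only at h3
    rcases lev_cases k' with ⟨h4, h5⟩ | ⟨h4, h5⟩
    · omega
    · have h6 : n = m' := by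
        apply Multiplicative.toAdd.injective
        omega
      subst h6
      have h7 : f ∈ (S.filter fun d => d.2 = n).image Prod.fst :=
        Finset.mem_image.2 ⟨(f, n), Finset.mem_filter.2 ⟨hf, rfl⟩, rfl⟩
      have h8 : L.ter f = v ∨ L.lab f = v := by
        rcases h5 with rfl | rfl
        · exact Or.inr (by rw [← hkv, ← h1]; rfl)
        · exact Or.inl (by rw [← hkv, ← h1]; rfl)
      have h9 : f = e' := by
        by_contra h10
        obtain ⟨h11, h12⟩ := hleaf f h7 h10
        rcases h8 with h8 | h8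
        · exact h11 h8
        · exact h12 h8
      subst h9
      refine ⟨rfl, ?_⟩
      rcases hk with rfl | rfl <;> rcases h5 with rfl | rfl
      · exact absurd h1 (fun h => hne h.symm)
      · rfl
      · rfl
      · exact absurd h1 hne
  rcases hv with hv | hv
  · exact ⟨(e', m'), hd2, 3, key 3 (Or.inl rfl) hv.symm⟩
  · exact ⟨(e', m'), hd2, 1, key 1 (Or.inr rfl) hv.symm⟩

theorem freeSides_of_A (L : LOG V E) {A : Type} [Group A] (ρ : L.G →* A) (h : L.FreeSidesA ρ) :
    L.FreeSides := by
  classical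
  intro S hS
  obtain ⟨d', hd', k, hk⟩ := h (S.image fun d => (d.1, ρ d.2)) (hS.image _)
  obtain ⟨⟨e, g⟩, hd, rfl⟩ := Finset.mem_image.1 hd'
  refine ⟨(e, g), hd, k, ?_⟩
  rintro ⟨f, g'⟩ hf k' hs
  unfold LOG.side at hs
  rw [Prod.mk.injEq] at hs
  simp only at hs
  obtain ⟨h1, h2⟩ := hk (f, ρ g') (Finset.mem_image_of_mem _ hf) k' (by
    unfold LOG.sideA
    rw [Prod.mk.injEq]
    simp only
    rw [← map_mul, ← map_mul, hs.2]
    exact ⟨hs.1, rfl⟩)
  rw [Prod.mk.injEq] at h1
  obtain ⟨rfl, -⟩ := h1
  subst h2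
  refine ⟨?_, rfl⟩
  rw [mul_right_cancel hs.2]

theorem locInd_int : LocInd (Multiplicative ℤ) := by
  intro H _ hne
  have h1 : ∃ x ∈ H, x ≠ 1 := by
    by_contra hcon
    push Not at hcon
    exact hne ((Subgroup.eq_bot_iff_forall H).2 hcon)
  obtain ⟨x, hx, hx1⟩ := h1
  exact surj_of_ne H.subtype ⟨⟨x, hx⟩, hx1⟩

theorem locInd_of_A (L : LOG V E) (h : L.FreeSidesA (degHom L)) : LocInd L.G :=
  LocInd.ext locInd_int (degHom L) fun H hH hne hk => ker_li L (degHom L) h H hH hk hne

/-- The 2-complex of `L` is aspherical: the boundary operator from the 2-chains to the 1-chains of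
its universal covering is injective, that is, its second homotopy group is zero. -/
def Aspherical (L : LOG V E) : Prop := ∀ c : (E × L.G) →₀ ℤ, L.bdry c = 0 → c = 0

/-- The 2-complex of `L` is aspherical, all closed diagrams in its universal covering are reducible,
and its fundamental group is locally indicable. -/
def Good (L : LOG V E) : Prop := Aspherical L ∧ L.Folds ∧ LocInd L.G

theorem good_of_A (L : LOG V E) (h : L.FreeSidesA (degHom L)) : Good L := by
  have h1 := freeSides_of_A L (degHom L) h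
  exact ⟨bdry_inj L h1, folds L h1, locInd_of_A L h⟩

/-- The subgraph with the vertices `W` and the edges `F`: its 2-complex is the subcomplex with the
1-cells `W` and the 2-cells `F`. -/
def sub (L : LOG V E) (W : Set V) (F : Set E)
    (h : ∀ e ∈ F, L.ini e ∈ W ∧ L.ter e ∈ W ∧ L.lab e ∈ W) : LOG W F where
  ini := fun e => ⟨L.ini e, (h e e.2).1⟩
  ter := fun e => ⟨L.ter e, (h e e.2).2.1⟩
  lab := fun e => ⟨L.lab e, (h e e.2).2.2⟩

/-- All subcomplexes with 2-cells in `A` are good. -/
def GoodOn (L : LOG V E) (A : Set E) : Prop :=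
  ∀ (W : Set V) (F : Set E) (h : ∀ e ∈ F, L.ini e ∈ W ∧ L.ter e ∈ W ∧ L.lab e ∈ W),
    F ⊆ A → Good (sub L W F h)

theorem goodOn_left (L : LOG V E) (A : Set E)
    (hA : IsForest (fun e : A => L.ini e) (fun e : A => L.lab e)) : GoodOn L A := by
  intro W F h hF
  refine good_of_A _ (freeSidesA_left _ ?_)
  exact hA.comap (fun e : F => (⟨e.1, hF e.2⟩ : A))
    (fun x y hxy => Subtype.ext (congrArg (fun z : A => z.1) hxy)) Subtype.val
    (fun _ => rfl) (fun _ => rfl)

theorem goodOn_right (L : LOG V E) (A : Set E)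
    (hA : IsForest (fun e : A => L.ter e) (fun e : A => L.lab e)) : GoodOn L A := by
  intro W F h hF
  refine good_of_A _ (freeSidesA_right _ ?_)
  exact hA.comap (fun e : F => (⟨e.1, hF e.2⟩ : A))
    (fun x y hxy => Subtype.ext (congrArg (fun z : A => z.1) hxy)) Subtype.val
    (fun _ => rfl) (fun _ => rfl)

/-- The graph in which the edges `e` with `o e = true` are reversed. -/
def reorient (L : LOG V E) (o : E → Bool) : LOG V E where
  ini := fun e => if o e then L.ter e else L.ini e
  ter := fun e => if o e then L.ini e else L.ter e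
  lab := L.lab

theorem goodOn_univ_left (L : LOG V E) (h : IsForest L.ini L.lab) : GoodOn L Set.univ :=
  goodOn_left L _ (h.comap (fun e : (Set.univ : Set E) => e.1) Subtype.val_injective id
    (fun _ => rfl) (fun _ => rfl))

theorem goodOn_univ_right (L : LOG V E) (h : IsForest L.ter L.lab) : GoodOn L Set.univ :=
  goodOn_right L _ (h.comap (fun e : (Set.univ : Set E) => e.1) Subtype.val_injective id
    (fun _ => rfl) (fun _ => rfl))

theorem forest_compl (L : LOG V E) (o : E → Bool) (h : IsForest (reorient L o).ini (reorient L o).lab) :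
    IsForest (reorient L fun e => !o e).ter (reorient L fun e => !o e).lab := by
  refine h.comap id Function.injective_id id ?_ (fun _ => rfl)
  intro e
  cases ho : o e <;> simp [reorient, ho]

/-- **If reversing the edges of `o` makes the left graph a forest, then the 2-cells outside of `o`
form a good family, and so do the 2-cells of `o`.** -/
theorem split (L : LOG V E) (o : E → Bool) (h : IsForest (reorient L o).ini (reorient L o).lab) :
    GoodOn L {e | o e = false} ∧ GoodOn L {e | o e = true} ∧ GoodOn (reorient L o) Set.univ ∧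
      GoodOn (reorient L fun e => !o e) Set.univ := by
  refine ⟨goodOn_left L _ ?_, goodOn_right L _ ?_, goodOn_univ_left _ h,
    goodOn_univ_right _ (forest_compl L o h)⟩
  · refine h.comap (fun e => e.1) Subtype.val_injective id ?_ (fun _ => rfl)
    rintro ⟨e, he⟩
    have he' : o e = false := he
    simp [reorient, he']
  · refine h.comap (fun e => e.1) Subtype.val_injective id ?_ (fun _ => rfl)
    rintro ⟨e, he⟩
    have he' : o e = true := he
    simp [reorient, he']

end Pool.Agent.Q172.LT
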