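import Pool.Agent.Q172.LT.Uni
import Pool.Agent.Q172.LT.Free

/-!
# The Alexander polynomials of all orientations of a labelled tree
-/

set_option autoImplicit false

namespace Pool.Agent.Q172.LT

open Matrix Polynomial Pool.Agent.TH625.LOG

variable {V E : Type} [DecidableEq V]

/-- The entry at the generator `v` of the Fox derivatives of the relator `x_i x_l x_t⁻¹ x_l⁻¹`, all
generators being mapped to `X`: `[i = v] - X [t = v] + (X - 1) [l = v]`. -/
noncomputable def foxRow (i t l v : V) : ℤ[X] :=
  (if i = v then 1 else 0) - X * (if t = v then 1 else 0) + (X - 1) * (if l = v then 1 else 0)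

section

variable [Fintype E] [DecidableEq E]

/-- The determinant of the Alexander matrix of `L` (rows: relators, columns: generators) with the
column `v₀` deleted, the other generators being numbered by `β`. -/
noncomputable def alexDet (L : LOG V E) (v₀ : V) (β : E ≃ {v : V // v ≠ v₀}) : ℤ[X] :=
  (Matrix.of fun e e' : E => foxRow (L.ini e) (L.ter e) (L.lab e) (β e' : V)).det

/-- The Alexander polynomial of a labelled oriented tree, normalised by the value `1` at `1`: the
determinant times its value at `1` (which is `1` or `-1`). -/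
noncomputable def alex (L : LOG V E) (v₀ : V) (β : E ≃ {v : V // v ≠ v₀}) : ℤ[X] :=
  C ((alexDet L v₀ β).eval 1) * alexDet L v₀ β

theorem foxRow_eval (i t l v : V) :
    (foxRow i t l v).eval 1 = (if i = v then 1 else 0) - (if t = v then 1 else 0) := by
  unfold foxRow
  split_ifs <;> simp

theorem alexDet_eval (L : LOG V E) (v₀ : V) (β : E ≃ {v : V // v ≠ v₀}) :
    (alexDet L v₀ β).eval 1 = (gmat L.ini L.ter fun e => (β e : V)).det := by
  unfold alexDet
  have h := (Polynomial.evalRingHom (1 : ℤ)).map_det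
    (Matrix.of fun e e' : E => foxRow (L.ini e) (L.ter e) (L.lab e) (β e' : V))
  rw [Polynomial.coe_evalRingHom] at h
  rw [h]
  congr 1
  ext e e'
  rw [RingHom.mapMatrix_apply, Matrix.map_apply, Matrix.of_apply, Polynomial.coe_evalRingHom,
    foxRow_eval]
  rfl

/-- the vectors `[v] - [v₀]` are combinations of the rows -/
theorem exists_comb (L : LOG V E) (hL : L.Conn) (v₀ v : V) :
    ∃ c : E → ℤ, ∀ w, w ≠ v₀ → ∑ e, c e * ((if L.ini e = w then (1 : ℤ) else 0) -
      (if L.ter e = w then 1 else 0)) = if v = w then 1 else 0 := by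
  induction hL v₀ v with
  | refl =>
    refine ⟨0, fun w hw => ?_⟩
    rw [if_neg (fun h => hw h.symm)]
    simp
  | @tail x y _ hadj ih =>
    obtain ⟨c, hc⟩ := ih
    obtain ⟨e, he⟩ := hadj
    have hsum : ∀ (s : ℤ) (w : V), ∑ e', (c e' + if e' = e then s else 0) *
        ((if L.ini e' = w then (1 : ℤ) else 0) - (if L.ter e' = w then 1 else 0)) =
        ∑ e', c e' * ((if L.ini e' = w then (1 : ℤ) else 0) - (if L.ter e' = w then 1 else 0)) +
        s * ((if L.ini e = w then (1 : ℤ) else 0) - (if L.ter e = w then 1 else 0)) := by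
      intro s w
      simp only [add_mul, Finset.sum_add_distrib, ite_mul, zero_mul, Finset.sum_ite_eq',
        Finset.mem_univ, if_true]
    rcases he with ⟨h1, h2⟩ | ⟨h1, h2⟩
    · refine ⟨fun e' => c e' + if e' = e then -1 else 0, fun w hw => ?_⟩
      rw [hsum, hc w hw, h1, h2]
      ring
    · refine ⟨fun e' => c e' + if e' = e then 1 else 0, fun w hw => ?_⟩
      rw [hsum, hc w hw, h1, h2]
      ring

theorem det_unit (L : LOG V E) (hL : L.Conn) (v₀ : V) (β : E ≃ {v : V // v ≠ v₀}) :
    (gmat L.ini L.ter fun e => (β e : V)).det = 1 ∨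
      (gmat L.ini L.ter fun e => (β e : V)).det = -1 := by
  choose c hc using exists_comb L hL v₀
  rw [← Int.isUnit_iff]
  apply Matrix.isUnit_det_of_left_inverse (B := Matrix.of fun e' e => c (β e' : V) e)
  ext e' e''
  rw [Matrix.mul_apply, Matrix.one_apply]
  have h1 := hc (β e' : V) (β e'' : V) (β e'').2
  simp only [gmat, Matrix.of_apply]
  rw [h1]
  by_cases h : e' = e''
  · rw [if_pos (by rw [h]), if_pos h]
  · rw [if_neg, if_neg h]
    intro h2
    exact h (β.injective (Subtype.ext h2))

theorem alex_eval (L : LOG V E) (hL : L.Conn) (v₀ : V) (β : E ≃ {v : V // v ≠ v₀}) :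
    (alex L v₀ β).eval 1 = 1 := by
  unfold alex
  rw [eval_mul, eval_C, alexDet_eval]
  rcases det_unit L hL v₀ β with h | h <;> rw [h] <;> norm_num

/-! ## The average -/

/-- the sign of a reversal -/
def rsgn : Bool → ℤ := fun b => if b then -1 else 1

/-- the rows of all orientations, with signs -/
noncomputable def R (L : LOG V E) {v₀ : V} (β : E ≃ {v : V // v ≠ v₀}) (e : E) (b : Bool) :
    E → ℤ[X] := fun e' =>
  if b then - foxRow (L.ter e) (L.ini e) (L.lab e) (β e' : V)
  else foxRow (L.ini e) (L.ter e) (L.lab e) (β e' : V)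

theorem alexDet_flip (L : LOG V E) (v₀ : V) (β : E ≃ {v : V // v ≠ v₀}) (o : E → Bool) :
    alexDet (reorient L o) v₀ β =
      C (∏ e, rsgn (o e)) * (Matrix.of fun e => R L β e (o e)).det := by
  have h1 := Matrix.det_mul_column (fun e => C (rsgn (o e))) (Matrix.of fun e => R L β e (o e))
  rw [map_prod, ← h1]
  unfold alexDet
  congr 1
  ext1 e e'
  simp only [Matrix.of_apply, R, rsgn, reorient]
  cases o e <;> simp

theorem gmat_flip (L : LOG V E) (v₀ : V) (β : E ≃ {v : V // v ≠ v₀}) (o : E → Bool) :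
    (gmat (reorient L o).ini (reorient L o).ter fun e => (β e : V)).det =
      (∏ e, rsgn (o e)) * (gmat L.ini L.ter fun e => (β e : V)).det := by
  rw [← Matrix.det_mul_column]
  congr 1
  ext1 e e'
  simp only [Matrix.of_apply, gmat, rsgn, reorient]
  by_cases ho : o e = true
  · simp [ho]
  · simp [ho]

omit [DecidableEq E] in
theorem prod_rsgn (o : E → Bool) : (∏ e, rsgn (o e)) * (∏ e, rsgn (o e)) = 1 := by
  rw [← Finset.prod_mul_distrib]
  refine Finset.prod_eq_one fun e _ => ?_
  cases o e <;> simp [rsgn]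

theorem alex_flip (L : LOG V E) (v₀ : V) (β : E ≃ {v : V // v ≠ v₀}) (o : E → Bool) :
    alex (reorient L o) v₀ β = C (gmat L.ini L.ter fun e => (β e : V)).det *
      (Matrix.of fun e => R L β e (o e)).det := by
  unfold alex
  rw [alexDet_eval, gmat_flip, alexDet_flip, ← mul_assoc, ← C_mul]
  congr 2
  rw [mul_right_comm, prod_rsgn, one_mul]

/-- **The sum of the Alexander polynomials of all orientations** is `(1 + X) ^ n`. -/
theorem sum_alex (L : LOG V E) (hL : L.Conn) (v₀ : V) (β : E ≃ {v : V // v ≠ v₀}) :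
    ∑ o : E → Bool, alex (reorient L o) v₀ β = (1 + X) ^ Fintype.card E := by
  have h1 : ∑ o : E → Bool, (Matrix.of fun e => R L β e (o e)).det =
      (Matrix.of fun e => ∑ b : Bool, R L β e b).det :=
    ((Matrix.detRowAlternating (R := ℤ[X]) (n := E)).toMultilinearMap.map_sum
      (fun e b => R L β e b)).symm
  have h2 : (Matrix.of fun e => ∑ b : Bool, R L β e b).det =
      (1 + X) ^ Fintype.card E * C (gmat L.ini L.ter fun e => (β e : V)).det := by
    have h3 : (Matrix.of fun e => ∑ b : Bool, R L β e b) =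
        Matrix.of fun e e' => (1 + X : ℤ[X]) *
          ((gmat L.ini L.ter fun e => (β e : V)).map C) e e' := by
      ext1 e e'
      simp only [Matrix.of_apply, Fintype.sum_bool, Pi.add_apply, R, foxRow, Matrix.map_apply, gmat,
        if_true, map_sub, Bool.false_eq_true, if_false]
      split_ifs <;> simp <;> ring
    rw [h3, Matrix.det_mul_column (fun _ => (1 + X : ℤ[X])), Finset.prod_const, Finset.card_univ]
    congr 1
    have h4 := (C : ℤ →+* ℤ[X]).map_det (gmat L.ini L.ter fun e => (β e : V))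
    rw [RingHom.mapMatrix_apply] at h4
    exact h4.symm
  have h5 : ∀ o, alex (reorient L o) v₀ β = C (gmat L.ini L.ter fun e => (β e : V)).det *
      (Matrix.of fun e => R L β e (o e)).det := alex_flip L v₀ β
  rw [Finset.sum_congr rfl fun o _ => h5 o, ← Finset.mul_sum, h1, h2, mul_left_comm, ← C_mul]
  rcases det_unit L hL v₀ β with h | h <;> rw [h] <;> simp

/-! ## The extreme coefficients -/

theorem alexDet_eq (L : LOG V E) (v₀ : V) (β : E ≃ {v : V // v ≠ v₀}) :
    alexDet L v₀ β = ((X : ℤ[X]) • (gmat L.lab L.ter fun e => (β e : V)).map C +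
      (gmat L.ini L.lab fun e => (β e : V)).map C).det := by
  unfold alexDet
  congr 1
  ext1 e e'
  simp only [Matrix.of_apply, foxRow, Matrix.add_apply, Matrix.smul_apply, smul_eq_mul,
    Matrix.map_apply, gmat, map_sub]
  split_ifs <;> simp <;> ring

theorem alex_coeff_zero (L : LOG V E) (v₀ : V) (β : E ≃ {v : V // v ≠ v₀}) :
    (alex L v₀ β).coeff 0 = (gmat L.ini L.ter fun e => (β e : V)).det *
      (gmat L.ini L.lab fun e => (β e : V)).det := by
  unfold alex
  rw [coeff_C_mul, alexDet_eval, alexDet_eq, Polynomial.coeff_det_X_add_C_zero]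

theorem alex_coeff_card (L : LOG V E) (v₀ : V) (β : E ≃ {v : V // v ≠ v₀}) :
    (alex L v₀ β).coeff (Fintype.card E) = (gmat L.ini L.ter fun e => (β e : V)).det *
      (gmat L.lab L.ter fun e => (β e : V)).det := by
  unfold alex
  rw [coeff_C_mul, alexDet_eval, alexDet_eq, Polynomial.coeff_det_X_add_C_card]

theorem alex_natDegree (L : LOG V E) (v₀ : V) (β : E ≃ {v : V // v ≠ v₀}) :
    (alex L v₀ β).natDegree ≤ Fintype.card E := by
  unfold alex
  refine (natDegree_C_mul_le _ _).trans ?_
  rw [alexDet_eq]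
  exact Polynomial.natDegree_det_X_add_C_le _ _

/-- The constant coefficient is `0`, `1` or `-1`, and it is nonzero exactly if the left graph is a
forest. -/
theorem coeff_zero_spec (L : LOG V E) (hL : L.Conn) (v₀ : V) (β : E ≃ {v : V // v ≠ v₀}) :
    ((alex L v₀ β).coeff 0 = 0 ∨ (alex L v₀ β).coeff 0 = 1 ∨ (alex L v₀ β).coeff 0 = -1) ∧
      ((alex L v₀ β).coeff 0 ≠ 0 ↔ IsForest L.ini L.lab) := by
  have hβ : Function.Injective (fun e => (β e : V)) := Subtype.val_injective.comp β.injective
  rw [alex_coeff_zero]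
  have h1 := det_unit L hL v₀ β
  refine ⟨unit_mul h1 (det_gmat _ _ _ hβ), ?_⟩
  rw [← det_ne_zero_iff L.ini L.lab v₀ β]
  rcases h1 with h | h <;> rw [h] <;> simp

/-- The coefficient of `X ^ n`. -/
theorem coeff_card_spec (L : LOG V E) (hL : L.Conn) (v₀ : V) (β : E ≃ {v : V // v ≠ v₀}) :
    ((alex L v₀ β).coeff (Fintype.card E) = 0 ∨ (alex L v₀ β).coeff (Fintype.card E) = 1 ∨
        (alex L v₀ β).coeff (Fintype.card E) = -1) ∧
      ((alex L v₀ β).coeff (Fintype.card E) ≠ 0 ↔ IsForest L.ter L.lab) := by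
  have hβ : Function.Injective (fun e => (β e : V)) := Subtype.val_injective.comp β.injective
  rw [alex_coeff_card]
  have h1 := det_unit L hL v₀ β
  refine ⟨unit_mul h1 (det_gmat _ _ _ hβ), ?_⟩
  have h2 : IsForest L.ter L.lab ↔ IsForest L.lab L.ter := ⟨IsForest.symm, IsForest.symm⟩
  rw [h2, ← det_ne_zero_iff L.lab L.ter v₀ β]
  rcases h1 with h | h <;> rw [h] <;> simp

end

end Pool.Agent.Q172.LT
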