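import Pool.Agent.Q172.LT.Lev

/-!
# Labelled rooted trees: orientations whose left graphs are forests at all branches
-/

set_option autoImplicit false

namespace Pool.Agent.Q172.LT

open Pool.Agent.TH625.LOG

variable {V E : Type}

open Classical in
/-- `l` if it lies in `C`, and `t` otherwise -/
noncomputable def alt (C : Set V) (l t : V) : V := if l ∈ C then l else t

theorem alt_mem {C : Set V} {l : V} (h : l ∈ C) (t : V) : alt C l t = l := if_pos h

theorem alt_notMem {C : Set V} {l : V} (h : l ∉ C) (t : V) : alt C l t = t := if_neg h

/-- Let `C` be a set of vertices.  For every edge both ends of which lie in `C`, join its initial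
vertex with its label; if the label does not lie in `C`, with its terminal vertex instead.  The graph
which arises is a forest. -/
def LeftOn (L : LOG V E) (C : Set V) : Prop :=
  IsForest (fun e : {e : E // L.ini e ∈ C ∧ L.ter e ∈ C} => L.ini e)
    (fun e => alt C (L.lab e) (L.ter e))

/-- The same with initial and terminal vertices exchanged. -/
def RightOn (L : LOG V E) (C : Set V) : Prop :=
  IsForest (fun e : {e : E // L.ini e ∈ C ∧ L.ter e ∈ C} => L.ter e)
    (fun e => alt C (L.lab e) (L.ini e))

theorem ends_reorient (L : LOG V E) (C : Set V) (o : E → Bool) (e : E) :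
    ((reorient L o).ini e ∈ C ∧ (reorient L o).ter e ∈ C) ↔ (L.ini e ∈ C ∧ L.ter e ∈ C) := by
  simp only [reorient]
  by_cases ho : o e = true
  · simp only [ho, if_true]
    exact and_comm
  · simp only [ho, if_false, Bool.false_eq_true]

/-- A forest with suitable pairs gives a left forest. -/
theorem leftOn_of (L : LOG V E) (C : Set V) (o : E → Bool) (a b : E → V)
    (h : IsForest a b)
    (h1 : ∀ e, L.ini e ∈ C ∧ L.ter e ∈ C → L.lab e ∈ C →
      (reorient L o).ini e = a e ∧ L.lab e = b e)
    (h2 : ∀ e, L.ini e ∈ C ∧ L.ter e ∈ C → L.lab e ∉ C →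
      ((reorient L o).ini e = a e ∧ (reorient L o).ter e = b e) ∨
      ((reorient L o).ini e = b e ∧ (reorient L o).ter e = a e)) :
    LeftOn (reorient L o) C := by
  refine h.comap' (fun e => e.1) Subtype.val_injective id ?_
  rintro ⟨e, he⟩
  have he' := (ends_reorient L C o e).1 he
  have hl : (reorient L o).lab e = L.lab e := rfl
  simp only [id, hl]
  by_cases hlab : L.lab e ∈ C
  · rw [alt_mem hlab]
    exact Or.inl (h1 e he' hlab)
  · rw [alt_notMem hlab]
    exact h2 e he' hlab

theorem leftOn_congr (L : LOG V E) (C : Set V) (o o' : E → Bool)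
    (h : ∀ e, L.ini e ∈ C → L.ter e ∈ C → L.lab e ∈ C → o' e = o e)
    (hf : LeftOn (reorient L o) C) : LeftOn (reorient L o') C := by
  refine hf.comap' (fun e => ⟨e.1, (ends_reorient L C o e).2 ((ends_reorient L C o' e).1 e.2)⟩)
    (fun x y hxy => Subtype.ext (congrArg (fun z => z.1) hxy)) id ?_
  rintro ⟨e, he⟩
  have he' := (ends_reorient L C o' e).1 he
  have hl : ∀ o, (reorient L o).lab e = L.lab e := fun _ => rfl
  simp only [id, hl]
  by_cases hlab : L.lab e ∈ C
  · rw [alt_mem hlab, alt_mem hlab]
    have h1 := h e he'.1 he'.2 hlab
    simp only [reorient, h1]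
    exact Or.inl ⟨trivial, trivial⟩
  · rw [alt_notMem hlab, alt_notMem hlab]
    simp only [reorient]
    cases o e <;> cases o' e <;> simp

theorem leftOn_univ (L : LOG V E) (h : LeftOn L Set.univ) : IsForest L.ini L.lab := by
  refine h.comap (fun e => ⟨e, Set.mem_univ _, Set.mem_univ _⟩)
    (fun x y hxy => congrArg (fun z => z.1) hxy) id (fun _ => rfl) (fun e => ?_)
  exact (alt_mem (Set.mem_univ _) _).symm

theorem rightOn_univ (L : LOG V E) (h : RightOn L Set.univ) : IsForest L.ter L.lab := by
  refine h.comap (fun e => ⟨e, Set.mem_univ _, Set.mem_univ _⟩)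
    (fun x y hxy => congrArg (fun z => z.1) hxy) id (fun _ => rfl) (fun e => ?_)
  exact (alt_mem (Set.mem_univ _) _).symm

theorem rightOn_compl (L : LOG V E) (C : Set V) (o : E → Bool)
    (h : LeftOn (reorient L o) C) : RightOn (reorient L fun e => !o e) C := by
  refine h.comap (fun e => ⟨e.1, (ends_reorient L C o e).2
    ((ends_reorient L C (fun e => !o e) e).1 e.2)⟩)
    (fun x y hxy => Subtype.ext (congrArg (fun z => z.1) hxy)) id ?_ ?_
  · rintro ⟨e, he⟩
    simp only [id, reorient]
    by_cases ho : o e = true
    · simp [ho]
    · simp [ho]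
  · rintro ⟨e, he⟩
    simp only [id, reorient]
    by_cases ho : o e = true
    · simp [ho]
    · simp [ho]

/-! ## Choices at all levels -/

theorem exists_choice_lev {ι K M : Type} [Fintype ι] [DivisionRing K] [AddCommGroup M] [Module K M]
    (a b : ι → M) (lev : ι → ℕ) (h : LinearIndependent K fun i => a i - b i) :
    ∃ p : ι → Bool, ∀ m, LinearIndependent K fun i =>
      if m ≤ lev i then (if p i then b i else a i) else a i - b i := by
  classical
  let M₀ : ℕ := Finset.univ.sup lev + 1
  have hM : ∀ m, M₀ ≤ m → ∀ i, ¬ m ≤ lev i := by
    intro m hm i hi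
    have := Finset.le_sup (f := lev) (Finset.mem_univ i)
    omega
  have key : ∀ j ≤ M₀, ∃ p : ι → Bool, ∀ m, M₀ - j ≤ m → LinearIndependent K fun i =>
      if m ≤ lev i then (if p i then b i else a i) else a i - b i := by
    intro j
    induction j with
    | zero =>
      intro _
      refine ⟨fun _ => true, fun m hm => ?_⟩
      have h1 : (fun i => if m ≤ lev i then (if (fun _ : ι => true) i then b i else a i)
          else a i - b i) = fun i => a i - b i := by
        funext i
        rw [if_neg (hM m hm i)]
      rw [h1]
      exact h
    | succ j ih =>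
      intro hj
      obtain ⟨p, hp⟩ := ih (by omega)
      set k := M₀ - (j + 1) with hk
      have hk' : M₀ - j = k + 1 := by omega
      rw [hk'] at hp
      have hw := hp (k + 1) le_rfl
      set w : ι → M := fun i => if k + 1 ≤ lev i then (if p i then b i else a i) else a i - b i
        with hwdef
      let a' : ι → M := fun i => if lev i = k then a i else w i
      let b' : ι → M := fun i => if lev i = k then b i else 0
      have hab : LinearIndependent K fun i => a' i - b' i := by
        have h1 : (fun i => a' i - b' i) = w := by
          funext i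
          by_cases hi : lev i = k
          · simp only [a', b', if_pos hi, hwdef]
            rw [if_neg (by omega)]
          · simp only [a', b', if_neg hi, sub_zero]
        rw [h1]
        exact hw
      obtain ⟨q, hq⟩ := exists_choice a' b' hab
      have hqf : ∀ i, lev i ≠ k → q i = false := by
        intro i hi
        by_contra hcon
        have h1 := hq.ne_zero i
        apply h1
        rw [Bool.not_eq_false] at hcon
        simp only [hcon, if_true, b', if_neg hi]
      refine ⟨fun i => if lev i = k then q i else p i, fun m hm => ?_⟩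
      rcases Nat.eq_or_lt_of_le hm with rfl | hlt
      · convert hq using 1
        funext i
        by_cases hi : lev i = k
        · simp only [a', b', if_pos hi]
          rw [if_pos hi.ge]
        · rw [hqf i hi]
          simp only [a', if_neg hi, Bool.false_eq_true, if_false, hwdef]
          by_cases h2 : k + 1 ≤ lev i
          · rw [if_pos h2, if_pos (by omega)]
          · rw [if_neg h2, if_neg (by omega)]
      · convert hp m hlt using 1
        funext i
        by_cases h2 : m ≤ lev i
        · rw [if_pos h2, if_pos h2]
          simp only [if_neg (show ¬ lev i = k by omega)]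
        · rw [if_neg h2, if_neg h2]
  obtain ⟨p, hp⟩ := key M₀ le_rfl
  exact ⟨p, fun m => hp m (by omega)⟩

/-- the vectors of the level `m` -/
noncomputable def lrow (L : LOG V E) (lev : E → ℕ) (m : ℕ) (x : Bool) (e : E) : V →₀ ℚ :=
  if m ≤ lev e then (if x then row (L.ter e) (L.lab e) else row (L.ini e) (L.lab e))
  else row (L.ini e) (L.ter e)

/-- **Existence.** An orientation such that the graphs of all levels are forests. -/
theorem exists_levels (L : LOG V E) (h : LinearIndependent ℚ fun e : E => row (L.ini e) (L.ter e))
    (lev : E → ℕ) : ∃ o : E → Bool, ∀ m,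
      IsForest (fun e => if m ≤ lev e then (reorient L o).ini e else L.ini e)
        (fun e => if m ≤ lev e then L.lab e else L.ter e) := by
  classical
  let C : Finset E → Set (E → Bool) := fun F =>
    {o | ∀ m, LinearIndependent ℚ fun e : F => lrow L lev m (o e) e}
  have hmono : ∀ F F' : Finset E, F ⊆ F' → C F' ⊆ C F := by
    intro F F' hF o ho m
    exact (ho m).comp (fun e : F => (⟨e.1, hF e.2⟩ : F'))
      (fun x y hxy => Subtype.ext (congrArg (fun z : F' => z.1) hxy))
  have hdir : Directed (· ⊇ ·) C := by
    intro F F'
    exact ⟨F ∪ F', hmono _ _ Finset.subset_union_left, hmono _ _ Finset.subset_union_right⟩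
  have hne : ∀ F, (C F).Nonempty := by
    intro F
    have h1 : LinearIndependent ℚ fun e : F => row (L.ini e.1) (L.lab e.1) -
        row (L.ter e.1) (L.lab e.1) := by
      have h2 := h.comp (fun e : F => e.1) Subtype.val_injective
      convert h2 using 1
      funext e
      simp only [row, Function.comp]
      abel
    obtain ⟨p, hp⟩ := exists_choice_lev _ _ (fun e : F => lev e) h1
    refine ⟨fun e => if he : e ∈ F then p ⟨e, he⟩ else false, fun m => ?_⟩
    have h3 : (fun e : F => lrow L lev m (if he : e.1 ∈ F then p ⟨e.1, he⟩ else false) e) =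
        fun e : F => if m ≤ lev e.1 then (if p e then row (L.ter e.1) (L.lab e.1)
          else row (L.ini e.1) (L.lab e.1)) else row (L.ini e.1) (L.lab e.1) -
          row (L.ter e.1) (L.lab e.1) := by
      funext e
      rw [dif_pos e.2]
      unfold lrow
      by_cases he : m ≤ lev e
      · rw [if_pos he, if_pos he]
      · rw [if_neg he, if_neg he]
        simp only [row]
        abel
    show LinearIndependent ℚ fun e : F =>
      lrow L lev m (if he : e.1 ∈ F then p ⟨e.1, he⟩ else false) e
    rw [h3]
    exact hp m
  have hcl : ∀ F, IsClosed (C F) := by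
    intro F
    let P : Set (F → Bool) := {p | ∀ m, LinearIndependent ℚ fun e : F => lrow L lev m (p e) e}
    have h1 : C F = (fun o : E → Bool => fun e : F => o e.1) ⁻¹' P := rfl
    rw [h1]
    refine IsClosed.preimage ?_ (isClosed_discrete P)
    exact continuous_pi fun e => continuous_apply e.1
  obtain ⟨o, ho⟩ := IsCompact.nonempty_iInter_of_directed_nonempty_isCompact_isClosed C hdir hne
    (fun F => (hcl F).isCompact) hcl
  refine ⟨o, fun m => ?_⟩
  refine isForest_of_indep _ _ fun F => ?_
  have h1 := Set.mem_iInter.1 ho F m
  convert h1 using 1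
  funext e
  simp only [rows, lrow, reorient]
  by_cases he : m ≤ lev e
  · rw [if_pos he, if_pos he, if_pos he]
    by_cases hoe : o e = true
    · rw [if_pos hoe, if_pos hoe]
    · rw [if_neg hoe, if_neg hoe]
  · rw [if_neg he, if_neg he, if_neg he]

end Pool.Agent.Q172.LT
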