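import Pool.Agent.Q172.LT.Alex

/-!
# The number of orientations whose left graph is a tree is odd
-/

set_option autoImplicit false

namespace Pool.Agent.Q172.LT

open Matrix Polynomial Pool.Agent.TH625.LOG

variable {V E : Type} [DecidableEq V]

theorem odd_of_sum {ι : Type} [Fintype ι] (f : ι → ℤ) (P : ι → Prop)
    (hf : ∀ i, (f i = 0 ∨ f i = 1 ∨ f i = -1) ∧ (f i ≠ 0 ↔ P i)) (hs : Odd (∑ i, f i)) :
    Odd (Nat.card {i // P i}) := by
  classical
  rw [Nat.card_eq_fintype_card, Fintype.card_subtype]
  have h1 : ((∑ i, f i : ℤ) : ZMod 2) = ((Finset.univ.filter P).card : ZMod 2) := by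
    rw [Finset.card_filter]
    push_cast
    refine Finset.sum_congr rfl fun i _ => ?_
    obtain ⟨h2, h3⟩ := hf i
    by_cases hi : P i
    · rw [if_pos hi]
      rcases h2 with h | h | h
      · exact absurd h (h3.2 hi)
      · rw [h]; rfl
      · rw [h]; rfl
    · rw [if_neg hi]
      have h4 : f i = 0 := by
        by_contra h5
        exact hi (h3.1 h5)
      rw [h4]; rfl
  have h2 : ((∑ i, f i : ℤ) : ZMod 2) = 1 := by
    obtain ⟨k, hk⟩ := hs
    rw [hk]
    push_cast
    have : (2 : ZMod 2) = 0 := rfl
    rw [this, zero_mul, zero_add]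
  rw [h2] at h1
  rw [← ZMod.natCast_eq_one_iff_odd]
  exact h1.symm

section

variable [Fintype E] [DecidableEq E]

omit [DecidableEq V] [Fintype E] [DecidableEq E] in
theorem reorient_conn (L : LOG V E) (hL : L.Conn) (o : E → Bool) : (reorient L o).Conn := by
  intro x y
  have key : ∀ a b, L.Adj a b → (reorient L o).Adj (id a) (id b) := by
    rintro a b ⟨e, he⟩
    refine ⟨e, ?_⟩
    simp only [reorient, id]
    by_cases ho : o e = true
    · simp only [ho, if_true]
      rcases he with ⟨h1, h2⟩ | ⟨h1, h2⟩
      · exact Or.inr ⟨h1, h2⟩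
      · exact Or.inl ⟨h1, h2⟩
    · simp only [ho]
      rcases he with ⟨h1, h2⟩ | ⟨h1, h2⟩
      · exact Or.inl ⟨h1, h2⟩
      · exact Or.inr ⟨h1, h2⟩
  exact (hL x y).lift id key

theorem odd_left (L : LOG V E) (hL : L.Conn) (v₀ : V) (β : E ≃ {v : V // v ≠ v₀}) :
    Odd (Nat.card {o : E → Bool // IsForest (reorient L o).ini (reorient L o).lab}) := by
  refine odd_of_sum (fun o => (alex (reorient L o) v₀ β).coeff 0) _
    (fun o => coeff_zero_spec _ (reorient_conn L hL o) v₀ β) ?_
  have h := congrArg (fun p : ℤ[X] => p.coeff 0) (sum_alex L hL v₀ β)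
  simp only [finsetSum_coeff] at h
  rw [h, coeff_zero_eq_eval_zero]
  simp

theorem odd_right (L : LOG V E) (hL : L.Conn) (v₀ : V) (β : E ≃ {v : V // v ≠ v₀}) :
    Odd (Nat.card {o : E → Bool // IsForest (reorient L o).ter (reorient L o).lab}) := by
  refine odd_of_sum (fun o => (alex (reorient L o) v₀ β).coeff (Fintype.card E)) _
    (fun o => coeff_card_spec _ (reorient_conn L hL o) v₀ β) ?_
  have h := congrArg (fun p : ℤ[X] => p.coeff (Fintype.card E)) (sum_alex L hL v₀ β)
  simp only [finsetSum_coeff] at h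
  rw [h, coeff_one_add_X_pow, Nat.choose_self]
  simp

theorem exists_left (L : LOG V E) (hL : L.Conn) (v₀ : V) (β : E ≃ {v : V // v ≠ v₀}) :
    ∃ o : E → Bool, IsForest (reorient L o).ini (reorient L o).lab := by
  have h := odd_left L hL v₀ β
  have h1 : Nat.card {o : E → Bool // IsForest (reorient L o).ini (reorient L o).lab} ≠ 0 := by
    intro h0
    rw [h0] at h
    exact absurd h (by decide)
  by_contra hcon
  apply h1
  rw [Nat.card_eq_zero]
  left
  exact ⟨fun x => hcon ⟨x.1, x.2⟩⟩

omit [DecidableEq E] in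
/-- a numbering of the vertices other than `v₀` -/
theorem exists_numbering [Fintype V] (hc : Fintype.card V = Fintype.card E + 1) (v₀ : V) :
    Nonempty (E ≃ {v : V // v ≠ v₀}) := by
  apply Fintype.card_eq.1
  rw [Fintype.card_subtype_compl, Fintype.card_subtype_eq, hc]
  simp

/-- **Reversing at most half of the edges** -/
theorem exists_half (L : LOG V E) (hL : L.Conn) (v₀ : V) (β : E ≃ {v : V // v ≠ v₀}) :
    ∃ o : E → Bool, 2 * (Finset.univ.filter fun e => o e = true).card ≤ Fintype.card E ∧
      (IsForest (reorient L o).ini (reorient L o).lab ∨ IsForest (reorient L o).ter (reorient L o).lab) ∧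
      GoodOn L {e | o e = false} ∧ GoodOn L {e | o e = true} := by
  obtain ⟨o, ho⟩ := exists_left L hL v₀ β
  obtain ⟨h1, h2, h3, h4⟩ := split L o ho
  have hcard := Finset.card_filter_add_card_filter_not (s := (Finset.univ : Finset E))
    (fun e => o e = true)
  rw [Finset.card_univ] at hcard
  rcases Nat.lt_or_ge (Fintype.card E) (2 * (Finset.univ.filter fun e => o e = true).card) with h | h
  · refine ⟨fun e => !o e, ?_, Or.inr ?_, ?_, ?_⟩
    · have h5 : (Finset.univ.filter fun e => (!o e) = true) =
          Finset.univ.filter fun e => ¬ o e = true := by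
        ext e
        simp
      rw [h5]
      omega
    · exact forest_compl L o ho
    · have h5 : {e | (!o e) = false} = {e | o e = true} := by
        ext e
        simp
      rw [h5]; exact h2
    · have h5 : {e | (!o e) = true} = {e | o e = false} := by
        ext e
        simp
      rw [h5]; exact h1
  · exact ⟨o, h, Or.inl ho, h1, h2⟩

end

end Pool.Agent.Q172.LT
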