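import Pool.Agent.Q172.LT.Fin

/-!
# Labelled trees: the contractible complex without one 2-cell
-/

set_option autoImplicit false

namespace Pool.Agent.Q172.LT

open Pool.Agent.TH625.LOG

variable {V E : Type}

/-- The vertices on the other side of the edge `e`: those which are not joined with `v₀` by the edges
other than `e`. -/
def far (L : LOG V E) (v₀ : V) (e : E) : Set V := {w | ¬ Relation.ReflTransGen (AdjOff L e) v₀ w}

/-- Let `K ∪ f` be the complex of `L` with one more 2-cell `f`, attached along the loop `x_{v₀}`.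

(a) All subcomplexes of `K` are aspherical with locally indicable fundamental groups.

(b) The same holds for every subcomplex `K'` of `K ∪ f` which contains `f`, if all vertices of `K'`
are joined with `v₀` by edges of `K'`, or if those which are not joined with `v₀` in `K'` are exactly
the vertices of `K'` on the other side of some edge `e` of `L`.

(c) In particular it holds for `K ∪ f` without the open 2-cell `e`, for every `e`. -/
def BranchGood (L : LOG V E) (v₀ : V) : Prop :=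
  (∀ (W : Set V) (F : Set E) (h : ∀ e ∈ F, L.ini e ∈ W ∧ L.ter e ∈ W ∧ L.lab e ∈ W),
    Aspherical (sub L W F h) ∧ LocInd (sub L W F h).G) ∧
  (∀ (W : Set V) (F : Set E) (h : ∀ e ∈ F, L.ini e ∈ W ∧ L.ter e ∈ W ∧ L.lab e ∈ W) (hv : v₀ ∈ W),
    ((∀ w : W, w ∈ joined (sub L W F h) ⟨v₀, hv⟩) ∨
      ∃ e, ∀ w : W, w ∉ joined (sub L W F h) ⟨v₀, hv⟩ ↔ (w : V) ∈ far L v₀ e) →
    AsphericalF (sub L W F h) ⟨v₀, hv⟩ ∧ LocInd (Gf (sub L W F h) ⟨v₀, hv⟩)) ∧
  ∀ e : E, AsphericalF (sub L Set.univ {e}ᶜ fun _ _ => ⟨trivial, trivial, trivial⟩)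
      ⟨v₀, trivial⟩ ∧
    LocInd (Gf (sub L Set.univ {e}ᶜ fun _ _ => ⟨trivial, trivial, trivial⟩) ⟨v₀, trivial⟩)

namespace Rooted

variable {L : LOG V E} {v₀ : V} (r : Rooted L v₀)

theorem far_eq (e : E) : far L v₀ e = r.branch (r.child e) := by
  ext w
  show ¬ _ ↔ _
  rw [r.near_iff e w, not_not]

theorem branchGood_of_tests (ht : Tests L r) : BranchGood L v₀ := by
  have hb : ∀ (W : Set V) (F : Set E) (h : ∀ e ∈ F, L.ini e ∈ W ∧ L.ter e ∈ W ∧ L.lab e ∈ W)
      (hv : v₀ ∈ W), ((∀ w : W, w ∈ joined (sub L W F h) ⟨v₀, hv⟩) ∨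
      ∃ e, ∀ w : W, w ∉ joined (sub L W F h) ⟨v₀, hv⟩ ↔ (w : V) ∈ far L v₀ e) →
      AsphericalF (sub L W F h) ⟨v₀, hv⟩ ∧ LocInd (Gf (sub L W F h) ⟨v₀, hv⟩) := by
    intro W F h hv hC
    refine r.goodF_of_tests ht W F h hv ?_
    rcases hC with hC | ⟨e, hC⟩
    · exact Or.inl hC
    · refine Or.inr ⟨r.child e, fun w => ?_⟩
      rw [← r.far_eq e, ← not_iff_not, not_not]
      exact hC w
  refine ⟨fun W F h => ?_, hb, fun e => hb _ _ _ _ (Or.inr ⟨e, fun w => not_congr ?_⟩)⟩
  · have h1 := r.goodOn_of_tests ht W F h (Set.subset_univ _)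
    exact ⟨h1.1, h1.2.2⟩
  · constructor
    · intro hw
      have h1 : ∀ x y : (Set.univ : Set V),
          (sub L Set.univ {e}ᶜ fun _ _ => ⟨trivial, trivial, trivial⟩).Adj x y →
          AdjOff L e x y := by
        rintro x y ⟨f, hf⟩
        refine ⟨f.1, f.2, ?_⟩
        rcases hf with ⟨a, b⟩ | ⟨a, b⟩
        · exact Or.inl ⟨congrArg Subtype.val a, congrArg Subtype.val b⟩
        · exact Or.inr ⟨congrArg Subtype.val a, congrArg Subtype.val b⟩
      have hw' : Relation.ReflTransGen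
          (sub L Set.univ {e}ᶜ fun _ _ => ⟨trivial, trivial, trivial⟩).Adj ⟨v₀, trivial⟩ w := hw
      exact hw'.lift (fun x : (Set.univ : Set V) => (x : V)) h1
    · intro hw
      have h1 : ∀ x y : V, AdjOff L e x y →
          (sub L Set.univ {e}ᶜ fun _ _ => ⟨trivial, trivial, trivial⟩).Adj
            (⟨x, trivial⟩ : (Set.univ : Set V)) ⟨y, trivial⟩ := by
        rintro x y ⟨f, hf, hxy⟩
        refine ⟨⟨f, hf⟩, ?_⟩
        rcases hxy with ⟨a, b⟩ | ⟨a, b⟩
        · exact Or.inl ⟨Subtype.ext a, Subtype.ext b⟩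
        · exact Or.inr ⟨Subtype.ext a, Subtype.ext b⟩
      exact hw.lift (fun x : V => (⟨x, trivial⟩ : (Set.univ : Set V))) h1

end Rooted

/-- The test for all branches, without the choice of a root structure. -/
def BranchTest (L : LOG V E) (v₀ : V) : Prop :=
  LeftOn L Set.univ ∧ ∀ e, LeftOn L (far L v₀ e)

theorem branchTest_iff {L : LOG V E} {v₀ : V} (r : Rooted L v₀) :
    BranchTest L v₀ ↔ ∀ v, LeftOn L (r.branch v) := by
  constructor
  · rintro ⟨h1, h2⟩ v
    by_cases hv : v = v₀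
    · rw [hv, r.branch_root]
      exact h1
    · obtain ⟨e, rfl⟩ := r.surj v hv
      rw [← r.far_eq]
      exact h2 e
  · intro h
    refine ⟨?_, fun e => ?_⟩
    · rw [← r.branch_root]
      exact h v₀
    · rw [r.far_eq]
      exact h _

theorem branchGood_pair {L : LOG V E} {v₀ : V} (r : Rooted L v₀) (o : E → Bool)
    (h : ∀ v, LeftOn (reorient L o) (r.branch v)) :
    BranchGood (reorient L o) v₀ ∧ BranchGood (reorient L fun e => !o e) v₀ :=
  ⟨(r.reor o).branchGood_of_tests (Or.inl h),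
    (r.reor fun e => !o e).branchGood_of_tests (Or.inr fun v => rightOn_compl L _ o (h v))⟩

end Pool.Agent.Q172.LT
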