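import Pool.Agent.Q172.LT.Top

/-!
# All subcomplexes of the contractible complex; intervals and rays
-/

set_option autoImplicit false

namespace Pool.Agent.Q172.LT

open Pool.Agent.TH625.LOG

variable {V E : Type}

/-- Let `K` be the complex of `L` and `K ∪ f` the complex with one more 2-cell `f`, attached along
the loop `x_{v₀}`.  All subcomplexes of `K ∪ f` are aspherical and have locally indicable fundamental
groups. -/
def AllGood (L : LOG V E) (v₀ : V) : Prop :=
  (∀ (W : Set V) (F : Set E) (h : ∀ e ∈ F, L.ini e ∈ W ∧ L.ter e ∈ W ∧ L.lab e ∈ W),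
    Aspherical (sub L W F h) ∧ LocInd (sub L W F h).G) ∧
  ∀ (W : Set V) (F : Set E) (h : ∀ e ∈ F, L.ini e ∈ W ∧ L.ter e ∈ W ∧ L.lab e ∈ W) (hv : v₀ ∈ W),
    AsphericalF (sub L W F h) ⟨v₀, hv⟩ ∧ LocInd (Gf (sub L W F h) ⟨v₀, hv⟩)

theorem leftOn_empty (L : LOG V E) : LeftOn L ∅ := by
  intro F hF
  obtain ⟨e, -⟩ := hF
  exact absurd e.2.1 (Set.notMem_empty _)

theorem rightOn_empty (L : LOG V E) : RightOn L ∅ := by
  intro F hF
  obtain ⟨e, -⟩ := hF
  exact absurd e.2.1 (Set.notMem_empty _)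

/-- the left and right tests -/
def Tests (L : LOG V E) {v₀ : V} (r : Rooted L v₀) : Prop :=
  (∀ v, LeftOn L (r.branch v)) ∨ ∀ v, RightOn L (r.branch v)

namespace Rooted

variable {L : LOG V E} {v₀ : V} (r : Rooted L v₀)

theorem branch_root : r.branch v₀ = Set.univ := Set.eq_univ_of_forall r.desc_root

theorem goodOn_of_tests (ht : Tests L r) : GoodOn L Set.univ := by
  rcases ht with ht | ht
  · have h := ht v₀
    rw [r.branch_root] at h
    exact goodOn_univ_left _ (leftOn_univ _ h)
  · have h := ht v₀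
    rw [r.branch_root] at h
    exact goodOn_univ_right _ (rightOn_univ _ h)

theorem goodF_of_tests (ht : Tests L r) (W : Set V) (F : Set E)
    (h : ∀ e ∈ F, L.ini e ∈ W ∧ L.ter e ∈ W ∧ L.lab e ∈ W) (hv : v₀ ∈ W)
    (hC : (∀ w : W, w ∈ joined (sub L W F h) ⟨v₀, hv⟩) ∨
      ∃ v, ∀ w : W, w ∈ joined (sub L W F h) ⟨v₀, hv⟩ ↔ (w : V) ∉ r.branch v) :
    GoodF (sub L W F h) ⟨v₀, hv⟩ := by
  rcases hC with hC | ⟨v, hC⟩
  · exact goodF_sub L r W F h hv ∅ (fun w => ⟨fun _ => Set.notMem_empty _, fun _ => hC w⟩)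
      (Or.inl (leftOn_empty L))
  · refine goodF_sub L r W F h hv _ hC ?_
    rcases ht with ht | ht
    · exact Or.inl (ht v)
    · exact Or.inr (ht v)

/-! ## Paths -/

theorem desc_iff (hd : Function.Injective r.dep) (v w : V) : r.Desc v w ↔ r.dep v ≤ r.dep w := by
  refine ⟨r.desc_dep, ?_⟩
  have key : ∀ n w, r.dep w = n → r.dep v ≤ r.dep w → r.Desc v w := by
    intro n
    induction n using Nat.strong_induction_on with
    | _ n ih =>
      intro w hw hvw
      rcases Nat.eq_or_lt_of_le hvw with h | h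
      · rw [hd h]
        exact r.desc_refl _
      · have h0 : w ≠ v₀ := by
          rintro rfl
          have h1 := r.desc_dep (r.desc_root v)
          omega
        obtain ⟨e, rfl⟩ := r.surj w h0
        have h1 := r.dep_child e
        exact r.desc_child (ih (r.dep (r.par e)) (by omega) _ rfl (by omega))
  exact key _ w rfl

theorem joined_down (hd : Function.Injective r.dep) (W : Set V) (F : Set E)
    (h : ∀ e ∈ F, L.ini e ∈ W ∧ L.ter e ∈ W ∧ L.lab e ∈ W) (hv : v₀ ∈ W) (w : W)
    (hw : w ∈ joined (sub L W F h) ⟨v₀, hv⟩) :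
    ∀ u : W, r.dep u ≤ r.dep w → u ∈ joined (sub L W F h) ⟨v₀, hv⟩ := by
  have hmain : Relation.ReflTransGen (sub L W F h).Adj ⟨v₀, hv⟩ w := hw
  clear hw
  induction hmain with
  | refl =>
    intro u hu
    have h1 := r.desc_dep (r.desc_root u)
    have h2 : (u : V) = v₀ := hd (le_antisymm hu h1)
    have h3 : u = ⟨v₀, hv⟩ := Subtype.ext h2
    rw [h3]
    exact Relation.ReflTransGen.refl
  | @tail x y hx hadj ih =>
    intro u hu
    obtain ⟨e, he⟩ := hadj
    have hcases : r.dep y = r.dep x + 1 ∨ r.dep y ≤ r.dep x := by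
      have h2 := r.dep_child e
      have h3 := r.ends e
      have h4 : (L.ini e = x ∧ L.ter e = y) ∨ (L.ter e = x ∧ L.ini e = y) := by
        rcases he with ⟨a, b⟩ | ⟨a, b⟩
        · exact Or.inl ⟨congrArg Subtype.val a, congrArg Subtype.val b⟩
        · exact Or.inr ⟨congrArg Subtype.val a, congrArg Subtype.val b⟩
      rcases h4 with ⟨a, b⟩ | ⟨a, b⟩ <;> rcases h3 with ⟨c, d⟩ | ⟨c, d⟩
      · right; rw [← a, ← b, c, d]; omega
      · left; rw [← a, ← b, c, d]; omega
      · left; rw [← a, ← b, c, d]; omega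
      · right; rw [← a, ← b, c, d]; omega
    rcases hcases with h2 | h2
    · rcases Nat.lt_or_ge (r.dep x) (r.dep u) with h3 | h3
      · have h4 : u = y := Subtype.ext (hd (by omega))
        rw [h4]
        exact Relation.ReflTransGen.tail hx ⟨e, he⟩
      · exact ih u h3
    · exact ih u (by omega)

/-- In a path with end `v₀` the vertices which are not joined with `v₀` form a branch. -/
theorem joined_path (hd : Function.Injective r.dep) (W : Set V) (F : Set E)
    (h : ∀ e ∈ F, L.ini e ∈ W ∧ L.ter e ∈ W ∧ L.lab e ∈ W) (hv : v₀ ∈ W) :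
    (∀ w : W, w ∈ joined (sub L W F h) ⟨v₀, hv⟩) ∨
      ∃ v, ∀ w : W, w ∈ joined (sub L W F h) ⟨v₀, hv⟩ ↔ (w : V) ∉ r.branch v := by
  classical
  by_cases hall : ∀ w : W, w ∈ joined (sub L W F h) ⟨v₀, hv⟩
  · exact Or.inl hall
  · right
    push Not at hall
    have hex : ∃ n, ∃ w : W, r.dep w = n ∧ w ∉ joined (sub L W F h) ⟨v₀, hv⟩ := by
      obtain ⟨w, hw⟩ := hall
      exact ⟨_, w, rfl, hw⟩
    obtain ⟨v, hv1, hv2⟩ := Nat.find_spec hex
    refine ⟨v, fun w => ?_⟩
    have hb : (w : V) ∈ r.branch v ↔ r.dep v ≤ r.dep w := r.desc_iff hd v w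
    rw [hb]
    constructor
    · intro hw hle
      exact hv2 (r.joined_down hd W F h hv w hw v hle)
    · intro hle
      by_contra hw
      have h1 := Nat.find_min' hex ⟨w, rfl, hw⟩
      rw [← hv1] at h1
      exact hle h1

/-- **Paths**: all subcomplexes are good. -/
theorem allGood_of_tests (hd : Function.Injective r.dep) (ht : Tests L r) : AllGood L v₀ := by
  refine ⟨fun W F h => ?_, fun W F h hv => ?_⟩
  · have h1 := r.goodOn_of_tests ht W F h (Set.subset_univ _)
    exact ⟨h1.1, h1.2.2⟩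
  · exact r.goodF_of_tests ht W F h hv (r.joined_path hd W F h hv)

end Rooted

/-! ## Intervals -/

/-- The labelled interval with the vertices `0, …, n`, the edges `j → j + 1` and the labels `lab`. -/
def interval {n : ℕ} (lab : Fin n → Fin (n + 1)) : LOG (Fin (n + 1)) (Fin n) where
  ini := Fin.castSucc
  ter := Fin.succ
  lab := lab

/-- The labelled ray with the vertices `0, 1, …`, the edges `j → j + 1` and the labels `lab`. -/
def ray (lab : ℕ → ℕ) : LOG ℕ ℕ where
  ini := fun j => j
  ter := fun j => j + 1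
  lab := lab

/-- root structure of an interval -/
def intervalRoot {n : ℕ} (lab : Fin n → Fin (n + 1)) : Rooted (interval lab) 0 where
  child := Fin.succ
  par := Fin.castSucc
  dep := fun v => v
  ends := fun _ => Or.inr ⟨rfl, rfl⟩
  inj := Fin.succ_injective n
  ne := fun e => Fin.succ_ne_zero e
  surj := fun v hv => Fin.exists_succ_eq.2 hv
  dep_child := fun e => by simp

/-- root structure of a ray -/
def rayRoot (lab : ℕ → ℕ) : Rooted (ray lab) 0 where
  child := fun j => j + 1
  par := fun j => j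
  dep := fun v => v
  ends := fun _ => Or.inr ⟨rfl, rfl⟩
  inj := fun _ _ h => Nat.succ_injective h
  ne := fun e => Nat.succ_ne_zero e
  surj := fun _ hv => Nat.exists_eq_succ_of_ne_zero hv |>.imp fun _ h => h.symm
  dep_child := fun _ => rfl

theorem conn_of_rooted (L : LOG V E) {v₀ : V} (r : Rooted L v₀) : L.Conn := by
  have hsymm : ∀ x y, L.Adj x y → L.Adj y x := by
    rintro x y ⟨e, ⟨a, b⟩ | ⟨a, b⟩⟩
    · exact ⟨e, Or.inr ⟨b, a⟩⟩
    · exact ⟨e, Or.inl ⟨b, a⟩⟩
  have key : ∀ n v, r.dep v = n → Relation.ReflTransGen L.Adj v₀ v := by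
    intro n
    induction n using Nat.strong_induction_on with
    | _ n ih =>
      intro v hv
      by_cases h0 : v = v₀
      · rw [h0]
      · obtain ⟨e, rfl⟩ := r.surj v h0
        refine (ih (r.dep (r.par e)) (by rw [← hv, r.dep_child]; omega) _ rfl).tail ?_
        rcases r.ends e with h1 | h1
        · exact ⟨e, Or.inr ⟨h1.2, h1.1⟩⟩
        · exact ⟨e, Or.inl h1⟩
  intro x y
  exact (rtg_symm hsymm (key _ x rfl)).trans (key _ y rfl)

theorem acyclic_of_rooted (L : LOG V E) {v₀ : V} (r : Rooted L v₀) : Acyclic L := by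
  intro e he
  have h1 := r.near_iff e
  have hsymm : ∀ x y, AdjOff L e x y → AdjOff L e y x := fun x y => adjOff_symm L e
  have hpar : r.par e ∉ r.branch (r.child e) := r.not_desc_par e
  have h2 : Relation.ReflTransGen (AdjOff L e) v₀ (r.par e) := (h1 _).2 hpar
  have h3 : r.child e ∉ r.branch (r.child e) := by
    rw [← h1]
    rcases r.ends e with ⟨a, b⟩ | ⟨a, b⟩
    · rw [a, b] at he
      exact h2.trans (rtg_symm hsymm he)
    · rw [a, b] at he
      exact h2.trans he
  exact h3 (r.desc_refl _)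

/-- Reversing at most half of the places. -/
theorem exists_near [Fintype E] [DecidableEq E] (P : (E → Bool) → Prop) (o₁ : E → Bool) (h1 : P o₁)
    (h2 : P fun e => !o₁ e) (o₀ : E → Bool) :
    ∃ o : E → Bool, 2 * (Finset.univ.filter fun e => o e ≠ o₀ e).card ≤ Fintype.card E ∧ P o := by
  have hcard := Finset.card_filter_add_card_filter_not (s := (Finset.univ : Finset E))
    (fun e => o₁ e ≠ o₀ e)
  rw [Finset.card_univ] at hcard
  rcases Nat.lt_or_ge (Fintype.card E) (2 * (Finset.univ.filter fun e => o₁ e ≠ o₀ e).card) with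
    h | h
  · refine ⟨fun e => !o₁ e, ?_, h2⟩
    have h5 : (Finset.univ.filter fun e => (!o₁ e) ≠ o₀ e) =
        Finset.univ.filter fun e => ¬ o₁ e ≠ o₀ e := by
      ext e
      simp only [Finset.mem_filter, Finset.mem_univ, true_and]
      cases o₁ e <;> cases o₀ e <;> simp
    rw [h5]
    omega
  · exact ⟨o₁, h, h1⟩

end Pool.Agent.Q172.LT
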