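import Pool.Agent.Q172.LT.Count

/-!
# Infinite labelled trees
-/

set_option autoImplicit false

namespace Pool.Agent.Q172.LT

open Pool.Agent.TH625.LOG

/-! ## Exchange -/

theorem indep_update {ι K M : Type} [DecidableEq ι] [DivisionRing K] [AddCommGroup M] [Module K M]
    (w : ι → M) (hw : LinearIndependent K w) (i : ι) (m : M)
    (hm : m ∉ Submodule.span K (w '' {j | j ≠ i})) :
    LinearIndependent K (Function.update w i m) := by
  have hs : (Set.univ : Set ι) = insert i {j | j ≠ i} := by
    ext j
    by_cases hj : j = i <;> simp [hj]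
  have hne : ∀ j ∈ {j | j ≠ i}, Function.update w i m j = w j := by
    intro j hj
    exact Function.update_of_ne hj _ _
  rw [← linearIndepOn_univ_iff, hs, linearIndepOn_insert (by simp)]
  refine ⟨?_, ?_⟩
  · have h1 := hw.linearIndepOn {j | j ≠ i}
    unfold LinearIndepOn at h1 ⊢
    convert h1 using 1
    funext j
    exact hne j.1 j.2
  · rw [Function.update_self, Set.image_congr hne]
    exact hm

/-- If the vectors `a i - b i` are linearly independent then one can choose one of the vectors `a i`,
`b i` for every `i` such that the chosen vectors are linearly independent. -/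
theorem exists_choice {ι K M : Type} [Fintype ι] [DivisionRing K] [AddCommGroup M] [Module K M]
    (a b : ι → M) (h : LinearIndependent K fun i => a i - b i) :
    ∃ p : ι → Bool, LinearIndependent K fun i => if p i then b i else a i := by
  classical
  have key : ∀ T : Finset ι, ∃ p : ι → Bool, LinearIndependent K
      fun i => if i ∈ T then (if p i then b i else a i) else a i - b i := by
    intro T
    induction T using Finset.induction_on with
    | empty => exact ⟨fun _ => true, by simpa using h⟩
    | insert i T hi ih =>
      obtain ⟨p, hp⟩ := ih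
      set w : ι → M := fun i => if i ∈ T then (if p i then b i else a i) else a i - b i with hw
      have hwi : w i = a i - b i := by
        show (if i ∈ T then (if p i then b i else a i) else a i - b i) = _
        rw [if_neg hi]
      have hupd : ∀ c : Bool, (fun j => if j ∈ insert i T then
          (if Function.update p i c j then b j else a j) else a j - b j) =
          Function.update w i (if c then b i else a i) := by
        intro c
        funext j
        by_cases hj : j = i
        · subst hj
          simp
        · rw [Function.update_of_ne hj, Function.update_of_ne hj]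
          simp [hw, Finset.mem_insert, hj]
      have hnot : w i ∉ Submodule.span K (w '' {j | j ≠ i}) :=
        hp.notMem_span_image (by simp)
      by_cases ha : a i ∈ Submodule.span K (w '' {j | j ≠ i})
      · have hb : b i ∉ Submodule.span K (w '' {j | j ≠ i}) := by
          intro hb
          apply hnot
          rw [hwi]
          exact Submodule.sub_mem _ ha hb
        refine ⟨Function.update p i true, ?_⟩
        rw [hupd true]
        exact indep_update w hp i _ hb
      · refine ⟨Function.update p i false, ?_⟩
        rw [hupd false]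
        exact indep_update w hp i _ ha
  obtain ⟨p, hp⟩ := key Finset.univ
  exact ⟨p, by simpa using hp⟩

/-! ## Trees -/

variable {V E : Type}

/-- `x` and `y` are the two ends of an edge other than `e`. -/
def AdjOff (L : LOG V E) (e : E) (x y : V) : Prop :=
  ∃ f, f ≠ e ∧ ((L.ini f = x ∧ L.ter f = y) ∨ (L.ter f = x ∧ L.ini f = y))

/-- The graph has no circuits: after removing any edge its two ends are not connected any more. -/
def Acyclic (L : LOG V E) : Prop :=
  ∀ e, ¬ Relation.ReflTransGen (AdjOff L e) (L.ini e) (L.ter e)

theorem adjOff_symm (L : LOG V E) (e : E) {x y : V} (h : AdjOff L e x y) : AdjOff L e y x := by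
  obtain ⟨f, hf, ⟨h1, h2⟩ | ⟨h1, h2⟩⟩ := h
  · exact ⟨f, hf, Or.inr ⟨h2, h1⟩⟩
  · exact ⟨f, hf, Or.inl ⟨h2, h1⟩⟩

/-- the vertices on the side of the initial vertex of `e` -/
noncomputable def cut (L : LOG V E) (e : E) (R : Type) [Zero R] [One R] (v : V) : R :=
  open Classical in if Relation.ReflTransGen (AdjOff L e) (L.ini e) v then 1 else 0

theorem cut_ini (L : LOG V E) (e : E) (R : Type) [Zero R] [One R] : cut L e R (L.ini e) = 1 := by
  unfold cut
  exact if_pos Relation.ReflTransGen.refl

theorem cut_ter (L : LOG V E) (h : Acyclic L) (e : E) (R : Type) [Zero R] [One R] :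
    cut L e R (L.ter e) = 0 := by
  unfold cut
  exact if_neg (h e)

theorem cut_other (L : LOG V E) {e f : E} (hf : f ≠ e) (R : Type) [Zero R] [One R] :
    cut L e R (L.ini f) = cut L e R (L.ter f) := by
  unfold cut
  have h1 : AdjOff L e (L.ini f) (L.ter f) := ⟨f, hf, Or.inl ⟨rfl, rfl⟩⟩
  have h2 := adjOff_symm L e h1
  by_cases h : Relation.ReflTransGen (AdjOff L e) (L.ini e) (L.ini f)
  · rw [if_pos h, if_pos (h.tail h1)]
  · rw [if_neg h, if_neg]
    intro h3
    exact h (h3.tail h2)

theorem cut_ini_sub_ter (L : LOG V E) (h : Acyclic L) (e f : E) (R : Type) [Ring R] [DecidableEq E] :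
    cut L e R (L.ini f) - cut L e R (L.ter f) = if f = e then 1 else 0 := by
  by_cases hf : f = e
  · subst hf
    rw [cut_ini, cut_ter L h, if_pos rfl, sub_zero]
  · rw [cut_other L hf, sub_self, if_neg hf]

/-- the rows of a forest -/
theorem indep_tree (L : LOG V E) (h : Acyclic L) :
    LinearIndependent ℚ fun e : E => row (L.ini e) (L.ter e) := by
  classical
  have hval : ∀ e f : E, (Finsupp.lsum ℚ fun v => LinearMap.toSpanSingleton ℚ ℚ (cut L e ℚ v))
      (row (L.ini f) (L.ter f)) = if f = e then 1 else 0 := by
    intro e f
    rw [row, map_sub, Finsupp.lsum_single, Finsupp.lsum_single,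
      LinearMap.toSpanSingleton_apply, LinearMap.toSpanSingleton_apply, one_smul, one_smul]
    exact cut_ini_sub_ter L h e f ℚ
  refine LinearIndependent.of_pairwise_dual_eq_zero_one _
    (fun e => Finsupp.lsum ℚ fun v => LinearMap.toSpanSingleton ℚ ℚ (cut L e ℚ v)) ?_ ?_
  · intro e f hef
    rw [hval e f, if_neg hef.symm]
  · intro e
    rw [hval e e, if_pos rfl]

theorem rows_flip (L : LOG V E) (o : E → Bool) (F : Finset E) :
    rows (reorient L o).ini (reorient L o).lab F = fun e : F =>
      if o e then row (L.ter e) (L.lab e) else row (L.ini e) (L.lab e) := by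
  funext e
  unfold rows reorient
  by_cases ho : o e = true <;> simp [ho]

/-- **Every tree, finite or infinite, has an orientation whose left graph is a forest.** -/
theorem exists_orientation (L : LOG V E) (h : Acyclic L) :
    ∃ o : E → Bool, IsForest (reorient L o).ini (reorient L o).lab := by
  classical
  let C : Finset E → Set (E → Bool) := fun F =>
    {o | LinearIndependent ℚ (rows (reorient L o).ini (reorient L o).lab F)}
  have hmono : ∀ F F' : Finset E, F ⊆ F' → C F' ⊆ C F := by
    intro F F' hF o ho
    have ho' : LinearIndependent ℚ (rows (reorient L o).ini (reorient L o).lab F') := ho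
    exact ho'.comp (fun e : F => (⟨e.1, hF e.2⟩ : F'))
      (fun x y hxy => Subtype.ext (congrArg (fun z : F' => z.1) hxy))
  have hdir : Directed (· ⊇ ·) C := by
    intro F F'
    exact ⟨F ∪ F', hmono _ _ Finset.subset_union_left, hmono _ _ Finset.subset_union_right⟩
  have hne : ∀ F, (C F).Nonempty := by
    intro F
    have h1 : LinearIndependent ℚ fun e : F => row (L.ini e.1) (L.lab e.1) -
        row (L.ter e.1) (L.lab e.1) := by
      have h2 := (indep_tree L h).comp (fun e : F => e.1) Subtype.val_injective
      convert h2 using 1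
      funext e
      simp only [row, Function.comp]
      abel
    obtain ⟨p, hp⟩ := exists_choice _ _ h1
    refine ⟨fun e => if he : e ∈ F then p ⟨e, he⟩ else false, ?_⟩
    show LinearIndependent ℚ (rows _ _ F)
    rw [rows_flip]
    have hf : (fun e : F => if (if he : e.1 ∈ F then p ⟨e.1, he⟩ else false)
        then row (L.ter e.1) (L.lab e.1) else row (L.ini e.1) (L.lab e.1)) =
        fun i : F => if p i then row (L.ter i.1) (L.lab i.1) else row (L.ini i.1) (L.lab i.1) := by
      funext e
      simp
    rw [hf]
    exact hp
  have hcl : ∀ F, IsClosed (C F) := by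
    intro F
    let P : Set (F → Bool) := {p | LinearIndependent ℚ fun e : F =>
      if p e then row (L.ter e.1) (L.lab e.1) else row (L.ini e.1) (L.lab e.1)}
    have h1 : C F = (fun o : E → Bool => fun e : F => o e.1) ⁻¹' P := by
      ext o
      show LinearIndependent ℚ (rows _ _ F) ↔ _
      rw [rows_flip]
      rfl
    rw [h1]
    refine IsClosed.preimage ?_ (isClosed_discrete P)
    exact continuous_pi fun e => continuous_apply e.1
  obtain ⟨o, ho⟩ := IsCompact.nonempty_iInter_of_directed_nonempty_isCompact_isClosed C hdir hne
    (fun F => (hcl F).isCompact) hcl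
  refine ⟨o, isForest_of_indep _ _ fun F => ?_⟩
  exact Set.mem_iInter.1 ho F

/-! ## Contractibility -/

/-- The 2-complex `K` of `L` with one more 2-cell `f`, attached along the loop `v₀`, is contractible:
its fundamental group is trivial, and its cellular boundary operator from the 2-chains to the
1-chains is injective. -/
def Contractible (L : LOG V E) (v₀ : V) : Prop :=
  Subsingleton (PresentedGroup (Set.range L.rel ∪ {FreeGroup.of v₀})) ∧
    ∀ (n : E →₀ ℤ) (m : ℤ), (n.sum fun e k => Finsupp.single (L.ini e) k -
      Finsupp.single (L.ter e) k) + Finsupp.single v₀ m = 0 → n = 0 ∧ m = 0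

theorem rtg_symm {α : Type} {r : α → α → Prop} (hr : ∀ x y, r x y → r y x) {x y : α}
    (h : Relation.ReflTransGen r x y) : Relation.ReflTransGen r y x := by
  induction h with
  | refl => exact Relation.ReflTransGen.refl
  | tail _ hbc ih => exact Relation.ReflTransGen.head (hr _ _ hbc) ih

theorem acyclic_reorient (L : LOG V E) (h : Acyclic L) (o : E → Bool) : Acyclic (reorient L o) := by
  intro e he
  have hadj : ∀ x y, AdjOff (reorient L o) e x y → AdjOff L e (id x) (id y) := by
    rintro x y ⟨f, hf, h1⟩
    refine ⟨f, hf, ?_⟩
    simp only [reorient, id] at h1 ⊢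
    by_cases ho : o f = true
    · simp only [ho, if_true] at h1
      rcases h1 with ⟨h1, h2⟩ | ⟨h1, h2⟩
      · exact Or.inr ⟨h1, h2⟩
      · exact Or.inl ⟨h1, h2⟩
    · simp only [ho] at h1
      rcases h1 with ⟨h1, h2⟩ | ⟨h1, h2⟩
      · exact Or.inl ⟨h1, h2⟩
      · exact Or.inr ⟨h1, h2⟩
  have h1 := he.lift id hadj
  by_cases ho : o e = true
  · simp only [reorient, ho, if_true] at h1
    refine h e ?_
    exact rtg_symm (fun x y hxy => adjOff_symm L e hxy) h1
  · simp only [reorient, ho] at h1
    exact h e h1

theorem contractible_tree (L : LOG V E) (hL : L.Conn) (h : Acyclic L) (v₀ : V) :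
    Contractible L v₀ := by
  classical
  refine ⟨trivial_group L hL v₀, fun n m hnm => ?_⟩
  -- the functional with the values `φ` at the vertices
  have hφ : ∀ φ : V → ℤ, (n.sum fun e k => φ (L.ini e) * k - φ (L.ter e) * k) + φ v₀ * m = 0 := by
    intro φ
    let s : (V →₀ ℤ) →+ ℤ := Finsupp.liftAddHom fun v => AddMonoidHom.mulLeft (φ v)
    have hs : ∀ v k, s (Finsupp.single v k) = φ v * k := by
      intro v k
      show (Finsupp.liftAddHom fun v => AddMonoidHom.mulLeft (φ v)) (Finsupp.single v k) = _
      rw [Finsupp.liftAddHom_apply_single]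
      rfl
    have h1 := congrArg s hnm
    rw [map_add, map_zero, Finsupp.sum, map_sum, hs] at h1
    rw [← h1, Finsupp.sum]
    congr 1
    refine Finset.sum_congr rfl fun e _ => ?_
    rw [map_sub, hs, hs]
  have hm : m = 0 := by
    have h1 := hφ fun _ => 1
    simpa using h1
  refine ⟨?_, hm⟩
  ext e
  have h1 := hφ (cut L e ℤ)
  rw [hm, mul_zero, add_zero] at h1
  have h2 : (n.sum fun f k => cut L e ℤ (L.ini f) * k - cut L e ℤ (L.ter f) * k) = n e := by
    have h3 : ∀ (f : E) (k : ℤ), cut L e ℤ (L.ini f) * k - cut L e ℤ (L.ter f) * k =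
        if f = e then k else 0 := by
      intro f k
      rw [← sub_mul, cut_ini_sub_ter L h e f ℤ]
      split_ifs <;> simp
    simp only [h3]
    rw [Finsupp.sum_ite_self_eq']
  rw [h2] at h1
  exact h1

end Pool.Agent.Q172.LT
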