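import Pool.Agent.Q172.LT.Inf

/-!
# One more 2-cell: killing a subtree
-/

set_option autoImplicit false

namespace Pool.Agent.Q172.LT

open Pool.Agent.TH625.LOG

variable {V E : Type}

/-- The fundamental group of the complex of `L` with one more 2-cell `f`, attached along the loop
`x_{v₀}`. -/
abbrev Gf (L : LOG V E) (v₀ : V) : Type := PresentedGroup (Set.range L.rel ∪ {FreeGroup.of v₀})

/-- the generator of the vertex `v` -/
def gf (L : LOG V E) (v₀ v : V) : Gf L v₀ := PresentedGroup.of v

theorem lift_of {R : Set (FreeGroup V)} (w : FreeGroup V) :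
    FreeGroup.lift (fun v => (PresentedGroup.of v : PresentedGroup R)) w = PresentedGroup.mk R w := by
  have h : FreeGroup.lift (fun v => (PresentedGroup.of v : PresentedGroup R)) =
      PresentedGroup.mk R := by
    ext v
    rw [FreeGroup.lift_apply_of]
    rfl
  rw [h]

/-- The homomorphism of fundamental groups induced by the inclusion. -/
noncomputable def toGf (L : LOG V E) (v₀ : V) : L.G →* Gf L v₀ :=
  PresentedGroup.toGroup (f := gf L v₀) (by
    intro r hr
    have h := lift_of (R := Set.range L.rel ∪ {FreeGroup.of v₀}) r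
    have h2 : PresentedGroup.mk (Set.range L.rel ∪ {FreeGroup.of v₀}) r = 1 :=
      PresentedGroup.one_of_mem (Or.inl hr)
    exact h.trans h2)

theorem toGf_gen (L : LOG V E) (v₀ v : V) : toGf L v₀ (L.gen v) = gf L v₀ v :=
  PresentedGroup.toGroup.of _

theorem gf_zero (L : LOG V E) (v₀ : V) : gf L v₀ v₀ = 1 :=
  PresentedGroup.one_of_mem (Or.inr rfl)

theorem gf_rel (L : LOG V E) (v₀ : V) (e : E) :
    gf L v₀ (L.ini e) * gf L v₀ (L.lab e) = gf L v₀ (L.lab e) * gf L v₀ (L.ter e) := by
  have h := congrArg (toGf L v₀) (gen_rel L e)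
  rw [map_mul, map_mul, toGf_gen, toGf_gen, toGf_gen] at h
  exact h

/-- The boundary operator from the 2-chains to the 1-chains of the universal covering of the complex
of `L` with the additional 2-cell `f`: the 2-cells are the pairs `(e, g)` with the four sides
`L.sideA`, and the 2-cells `f_g`, the boundary of which is the edge `(v₀, g)`. -/
noncomputable def bdryF (L : LOG V E) (v₀ : V) (c : (E × Gf L v₀) →₀ ℤ) (d : Gf L v₀ →₀ ℤ) :
    (V × Gf L v₀) →₀ ℤ :=
  (c.sum fun x n => ∑ k : Fin 4, Finsupp.single (L.sideA (toGf L v₀) x k) (sgn k * n)) +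
    d.sum fun g n => Finsupp.single (v₀, g) n

/-- The complex of `L` with the additional 2-cell `f` is aspherical: the boundary operator from the
2-chains to the 1-chains of its universal covering is injective. -/
def AsphericalF (L : LOG V E) (v₀ : V) : Prop :=
  ∀ (c : (E × Gf L v₀) →₀ ℤ) (d : Gf L v₀ →₀ ℤ), bdryF L v₀ c d = 0 → c = 0 ∧ d = 0

/-- the boundary operator as a homomorphism -/
noncomputable def bdHom (L : LOG V E) {A : Type} [Group A] (ρ : L.G →* A) :
    ((E × A) →₀ ℤ) →+ ((V × A) →₀ ℤ) :=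
  Finsupp.liftAddHom fun x => ∑ k : Fin 4,
    (Finsupp.singleAddHom (L.sideA ρ x k)).comp (AddMonoidHom.mulLeft (sgn k))

theorem bdHom_apply (L : LOG V E) {A : Type} [Group A] (ρ : L.G →* A) (c : (E × A) →₀ ℤ) :
    bdHom L ρ c = c.sum fun x n => ∑ k : Fin 4, Finsupp.single (L.sideA ρ x k) (sgn k * n) := by
  unfold bdHom
  rw [Finsupp.liftAddHom_apply]
  refine Finsupp.sum_congr fun x _ => ?_
  rw [AddMonoidHom.finsetSum_apply]
  rfl

theorem bdHom_single (L : LOG V E) {A : Type} [Group A] (ρ : L.G →* A) (x : E × A) (n : ℤ) :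
    bdHom L ρ (Finsupp.single x n) =
      ∑ k : Fin 4, Finsupp.single (L.sideA ρ x k) (sgn k * n) := by
  rw [bdHom_apply, Finsupp.sum_single_index]
  simp

theorem bdry_eq (L : LOG V E) (c : (E × L.G) →₀ ℤ) :
    L.bdry c = bdHom L (MonoidHom.id L.G) c := by
  rw [bdHom_apply]
  rfl

section

variable (L : LOG V E) (v₀ : V) (S : Set V)

open Classical in
/-- The vertices outside of `S` and the edges between them; a label in `S` is replaced by the
initial vertex (`b = true`) or the terminal vertex (`b = false`) of the edge. -/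
noncomputable def killed (hS : ∀ e, L.ini e ∈ S ↔ L.ter e ∈ S) (b : Bool) :
    LOG {v : V // v ∉ S} {e : E // L.ini e ∉ S} where
  ini := fun e => ⟨L.ini e, e.2⟩
  ter := fun e => ⟨L.ter e, fun h => e.2 ((hS e).2 h)⟩
  lab := fun e => if h : L.lab e ∈ S then
    (if b then ⟨L.ini e, e.2⟩ else ⟨L.ter e, fun h => e.2 ((hS e).2 h)⟩) else ⟨L.lab e, h⟩

variable (hS : ∀ e, L.ini e ∈ S ↔ L.ter e ∈ S) (b : Bool)

theorem killed_lab_of_mem (e : {e : E // L.ini e ∉ S}) (h : L.lab e ∈ S) :
    (killed L S hS b).lab e = if b then (killed L S hS b).ini e else (killed L S hS b).ter e := by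
  simp only [killed, dif_pos h]

theorem killed_lab_of_notMem (e : {e : E // L.ini e ∉ S}) (h : L.lab e ∉ S) :
    (killed L S hS b).lab e = ⟨L.lab e, h⟩ := by
  simp only [killed, dif_neg h]

/-- the two ends of an edge whose label has been killed give the same generator -/
theorem killed_gen_eq (e : {e : E // L.ini e ∉ S}) (h : L.lab e ∈ S) :
    (killed L S hS b).gen ((killed L S hS b).ini e) =
      (killed L S hS b).gen ((killed L S hS b).ter e) := by
  have h1 := gen_rel (killed L S hS b) e
  rw [killed_lab_of_mem L S hS b e h] at h1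
  cases b
  · simp only [Bool.false_eq_true, if_false] at h1
    exact mul_right_cancel h1
  · simp only [if_true] at h1
    exact mul_left_cancel h1

open Classical in
/-- the map to the group of the quotient -/
noncomputable def al (hv : v₀ ∈ S) : Gf L v₀ →* (killed L S hS b).G :=
  PresentedGroup.toGroup (f := fun v => if h : v ∈ S then 1 else (killed L S hS b).gen ⟨v, h⟩) (by
    rintro r (⟨e, rfl⟩ | hr)
    · show FreeGroup.lift _ (FreeGroup.of (L.ini e) * FreeGroup.of (L.lab e) *
        (FreeGroup.of (L.ter e))⁻¹ * (FreeGroup.of (L.lab e))⁻¹) = 1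
      simp only [map_mul, map_inv, FreeGroup.lift_apply_of]
      by_cases he : L.ini e ∈ S
      · rw [dif_pos he, dif_pos ((hS e).1 he)]
        simp
      · have ht : L.ter e ∉ S := fun h => he ((hS e).2 h)
        rw [dif_neg he, dif_neg ht]
        by_cases hl : L.lab e ∈ S
        · rw [dif_pos hl, mul_one, inv_one, mul_one, mul_inv_eq_one]
          exact killed_gen_eq L S hS b ⟨e, he⟩ hl
        · rw [dif_neg hl]
          have h1 := gen_rel (killed L S hS b) ⟨e, he⟩
          rw [killed_lab_of_notMem L S hS b ⟨e, he⟩ hl] at h1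
          rw [mul_inv_eq_one, mul_inv_eq_iff_eq_mul]
          exact h1
    · rw [Set.mem_singleton_iff.1 hr, FreeGroup.lift_apply_of, dif_pos hv])

theorem al_mem (hv : v₀ ∈ S) {v : V} (h : v ∈ S) : al L v₀ S hS b hv (gf L v₀ v) = 1 := by
  have h1 : al L v₀ S hS b hv (gf L v₀ v) = _ := PresentedGroup.toGroup.of _
  rw [h1, dif_pos h]

theorem al_notMem (hv : v₀ ∈ S) {v : V} (h : v ∉ S) :
    al L v₀ S hS b hv (gf L v₀ v) = (killed L S hS b).gen ⟨v, h⟩ := by
  have h1 : al L v₀ S hS b hv (gf L v₀ v) = _ := PresentedGroup.toGroup.of _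
  rw [h1, dif_neg h]

variable (h1 : ∀ v ∈ S, gf L v₀ v = 1)

/-- the map back -/
noncomputable def be : (killed L S hS b).G →* Gf L v₀ :=
  PresentedGroup.toGroup (f := fun v : {v : V // v ∉ S} => gf L v₀ v) (by
    rintro _ ⟨e, rfl⟩
    show FreeGroup.lift _ (FreeGroup.of ((killed L S hS b).ini e) *
        FreeGroup.of ((killed L S hS b).lab e) *
        (FreeGroup.of ((killed L S hS b).ter e))⁻¹ *
        (FreeGroup.of ((killed L S hS b).lab e))⁻¹) = 1
    simp only [map_mul, map_inv, FreeGroup.lift_apply_of]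
    rw [mul_inv_eq_one, mul_inv_eq_iff_eq_mul]
    have h2 := gf_rel L v₀ e
    by_cases hl : L.lab e ∈ S
    · rw [h1 _ hl, mul_one, one_mul] at h2
      have h3 : gf L v₀ ((killed L S hS b).ini e : V) = gf L v₀ ((killed L S hS b).ter e : V) := h2
      rw [killed_lab_of_mem L S hS b e hl]
      cases b
      · simp only [Bool.false_eq_true, if_false, h3]
      · simp only [if_true, h3]
    · rw [killed_lab_of_notMem L S hS b e hl]
      exact h2)

theorem be_gen (v : {v : V // v ∉ S}) :
    be L v₀ S hS b h1 ((killed L S hS b).gen v) = gf L v₀ v :=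
  PresentedGroup.toGroup.of _

theorem be_al (hv : v₀ ∈ S) (g : Gf L v₀) : be L v₀ S hS b h1 (al L v₀ S hS b hv g) = g := by
  have h : (be L v₀ S hS b h1).comp (al L v₀ S hS b hv) = MonoidHom.id (Gf L v₀) := by
    refine PresentedGroup.ext fun v => ?_
    show be L v₀ S hS b h1 (al L v₀ S hS b hv (gf L v₀ v)) = gf L v₀ v
    by_cases h : v ∈ S
    · rw [al_mem L v₀ S hS b hv h, map_one, h1 v h]
    · rw [al_notMem L v₀ S hS b hv h, be_gen]
  exact DFunLike.congr_fun h g

theorem al_be (hv : v₀ ∈ S) (g : (killed L S hS b).G) :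
    al L v₀ S hS b hv (be L v₀ S hS b h1 g) = g := by
  have h : (al L v₀ S hS b hv).comp (be L v₀ S hS b h1) = MonoidHom.id _ := by
    refine PresentedGroup.ext fun v => ?_
    show al L v₀ S hS b hv (be L v₀ S hS b h1 ((killed L S hS b).gen v)) =
      (killed L S hS b).gen v
    rw [be_gen, al_notMem L v₀ S hS b hv v.2]
  exact DFunLike.congr_fun h g

theorem be_injective (hv : v₀ ∈ S) : Function.Injective (be L v₀ S hS b h1) :=
  Function.LeftInverse.injective (al_be L v₀ S hS b h1 hv)

end

end Pool.Agent.Q172.LT
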