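import Pool.Agent.Q172.LT.Kill

/-!
# One more 2-cell: the chains
-/

set_option autoImplicit false

namespace Pool.Agent.Q172.LT

open Pool.Agent.TH625.LOG

variable {V E : Type}

theorem bdHom_four (L : LOG V E) {A : Type} [Group A] (ρ : L.G →* A) (e : E) (a : A) (n : ℤ) :
    bdHom L ρ (Finsupp.single (e, a) n) = Finsupp.single (L.ini e, a) n +
      Finsupp.single (L.lab e, a * ρ (L.gen (L.ini e))) n +
      Finsupp.single (L.lab e, a) (-n) + Finsupp.single (L.ter e, a * ρ (L.gen (L.lab e))) (-n) := by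
  rw [bdHom_single, Fin.sum_univ_four]
  have s0 : L.sideA ρ (e, a) 0 = (L.ini e, a) := by
    show (L.ini e, a * ρ 1) = (L.ini e, a)
    rw [map_one, mul_one]
  have s1 : L.sideA ρ (e, a) 1 = (L.lab e, a * ρ (L.gen (L.ini e))) := rfl
  have s2 : L.sideA ρ (e, a) 2 = (L.lab e, a) := by
    show (L.lab e, a * ρ 1) = (L.lab e, a)
    rw [map_one, mul_one]
  have s3 : L.sideA ρ (e, a) 3 = (L.ter e, a * ρ (L.gen (L.lab e))) := rfl
  have g0 : sgn 0 = 1 := rfl
  have g1 : sgn 1 = 1 := rfl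
  have g2 : sgn 2 = -1 := rfl
  have g3 : sgn 3 = -1 := rfl
  rw [s0, s1, s2, s3, g0, g1, g2, g3, one_mul, neg_one_mul]

section

variable (L : LOG V E) (v₀ : V) (S : Set V) (hS : ∀ e, L.ini e ∈ S ↔ L.ter e ∈ S) (b : Bool)
  (hv : v₀ ∈ S) (h1 : ∀ v ∈ S, gf L v₀ v = 1)

/-- a 1-cell of the quotient as a 1-cell of the complex -/
noncomputable def f1 (x : {v : V // v ∉ S} × (killed L S hS b).G) : V × Gf L v₀ :=
  (x.1, be L v₀ S hS b h1 x.2)

include hv in
theorem f1_inj : Function.Injective (f1 L v₀ S hS b h1) := by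
  rintro ⟨v, g⟩ ⟨w, h⟩ hx
  unfold f1 at hx
  rw [Prod.mk.injEq] at hx
  exact Prod.ext (Subtype.ext hx.1) (be_injective L v₀ S hS b h1 hv hx.2)

open Classical in
/-- the shift of a 2-cell -/
noncomputable def sh (e : {e : E // L.ini e ∉ S}) : (killed L S hS b).G :=
  if L.lab e ∈ S ∧ b = true then (killed L S hS b).gen ((killed L S hS b).ini e) else 1

/-- a 2-cell of the quotient as a 2-cell of the complex -/
noncomputable def f2 (x : {e : E // L.ini e ∉ S} × (killed L S hS b).G) : E × Gf L v₀ :=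
  (x.1, be L v₀ S hS b h1 (x.2 * sh L S hS b x.1))

include hv in
theorem f2_inj : Function.Injective (f2 L v₀ S hS b h1) := by
  rintro ⟨v, g⟩ ⟨w, h⟩ hx
  unfold f2 at hx
  rw [Prod.mk.injEq] at hx
  have h2 : v = w := Subtype.ext hx.1
  subst h2
  have h3 := be_injective L v₀ S hS b h1 hv hx.2
  exact Prod.ext rfl (mul_right_cancel h3)

/-- the restriction of the 1-chains -/
noncomputable def R1 : ((V × Gf L v₀) →₀ ℤ) →+ (({v : V // v ∉ S} × (killed L S hS b).G) →₀ ℤ) :=
  Finsupp.comapDomain.addMonoidHom (f1_inj L v₀ S hS b hv h1)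

/-- the restriction of the 2-chains -/
noncomputable def R2 : ((E × Gf L v₀) →₀ ℤ) →+
    (({e : E // L.ini e ∉ S} × (killed L S hS b).G) →₀ ℤ) :=
  Finsupp.comapDomain.addMonoidHom (f2_inj L v₀ S hS b hv h1)

theorem R1_apply (x : (V × Gf L v₀) →₀ ℤ) (y : {v : V // v ∉ S} × (killed L S hS b).G) :
    R1 L v₀ S hS b hv h1 x y = x (f1 L v₀ S hS b h1 y) := rfl

theorem R2_apply (x : (E × Gf L v₀) →₀ ℤ) (y : {e : E // L.ini e ∉ S} × (killed L S hS b).G) :
    R2 L v₀ S hS b hv h1 x y = x (f2 L v₀ S hS b h1 y) := rfl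

theorem R1_single_mem {v : V} (h : v ∈ S) (g : Gf L v₀) (n : ℤ) :
    R1 L v₀ S hS b hv h1 (Finsupp.single (v, g) n) = 0 := by
  ext y
  rw [R1_apply, Finsupp.single_eq_of_ne]
  · rfl
  · intro h2
    have h3 : (y.1 : V) = v := congrArg Prod.fst h2
    exact y.1.2 (h3 ▸ h)

theorem R1_single_notMem {v : V} (h : v ∉ S) (g : Gf L v₀) (n : ℤ) :
    R1 L v₀ S hS b hv h1 (Finsupp.single (v, g) n) =
      Finsupp.single (⟨v, h⟩, al L v₀ S hS b hv g) n := by
  have h2 : (v, g) = f1 L v₀ S hS b h1 (⟨v, h⟩, al L v₀ S hS b hv g) := by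
    unfold f1
    rw [be_al]
  rw [h2]
  exact Finsupp.comapDomain_single _ _ _ _

theorem R2_single_mem {e : E} (h : L.ini e ∈ S) (g : Gf L v₀) (n : ℤ) :
    R2 L v₀ S hS b hv h1 (Finsupp.single (e, g) n) = 0 := by
  ext y
  rw [R2_apply, Finsupp.single_eq_of_ne]
  · rfl
  · intro h2
    have h3 : (y.1 : E) = e := congrArg Prod.fst h2
    exact y.1.2 (h3 ▸ h)

theorem R2_single_notMem {e : E} (h : L.ini e ∉ S) (g : Gf L v₀) (n : ℤ) :
    R2 L v₀ S hS b hv h1 (Finsupp.single (e, g) n) =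
      Finsupp.single (⟨e, h⟩, al L v₀ S hS b hv g * (sh L S hS b ⟨e, h⟩)⁻¹) n := by
  have h2 : (e, g) = f2 L v₀ S hS b h1 (⟨e, h⟩, al L v₀ S hS b hv g * (sh L S hS b ⟨e, h⟩)⁻¹) := by
    unfold f2
    rw [inv_mul_cancel_right, be_al]
  rw [h2]
  exact Finsupp.comapDomain_single _ _ _ _

/-- the restrictions form a chain map -/
theorem chain_map (c : (E × Gf L v₀) →₀ ℤ) :
    R1 L v₀ S hS b hv h1 (bdHom L (toGf L v₀) c) =
      bdHom (killed L S hS b) (MonoidHom.id _) (R2 L v₀ S hS b hv h1 c) := by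
  have key : (R1 L v₀ S hS b hv h1).comp (bdHom L (toGf L v₀)) =
      (bdHom (killed L S hS b) (MonoidHom.id _)).comp (R2 L v₀ S hS b hv h1) := by
    refine Finsupp.addHom_ext fun x n => ?_
    obtain ⟨e, g⟩ := x
    show R1 L v₀ S hS b hv h1 (bdHom L (toGf L v₀) (Finsupp.single (e, g) n)) =
      bdHom (killed L S hS b) (MonoidHom.id _) (R2 L v₀ S hS b hv h1 (Finsupp.single (e, g) n))
    rw [bdHom_four, map_add, map_add, map_add, toGf_gen, toGf_gen]
    by_cases he : L.ini e ∈ S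
    · rw [R2_single_mem L v₀ S hS b hv h1 he, map_zero, R1_single_mem L v₀ S hS b hv h1 he,
        R1_single_mem L v₀ S hS b hv h1 ((hS e).1 he), h1 _ he, mul_one, zero_add, add_zero,
        ← map_add, ← Finsupp.single_add, add_neg_cancel, Finsupp.single_zero, map_zero]
    · have ht : L.ter e ∉ S := fun h => he ((hS e).2 h)
      rw [R2_single_notMem L v₀ S hS b hv h1 he, bdHom_four, R1_single_notMem L v₀ S hS b hv h1 he,
        R1_single_notMem L v₀ S hS b hv h1 ht]
      simp only [MonoidHom.id_apply, map_mul]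
      have hi : (killed L S hS b).ini ⟨e, he⟩ = ⟨L.ini e, he⟩ := rfl
      have htt : (killed L S hS b).ter ⟨e, he⟩ = ⟨L.ter e, ht⟩ := rfl
      by_cases hl : L.lab e ∈ S
      · have hg := killed_gen_eq L S hS b ⟨e, he⟩ hl
        rw [R1_single_mem L v₀ S hS b hv h1 hl, R1_single_mem L v₀ S hS b hv h1 hl,
          al_mem L v₀ S hS b hv hl, mul_one, add_zero, add_zero,
          killed_lab_of_mem L S hS b ⟨e, he⟩ hl]
        cases b
        · have hsh : sh L S hS false ⟨e, he⟩ = 1 := by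
            unfold sh
            rw [if_neg]
            rintro ⟨-, h⟩
            exact absurd h (by decide)
          rw [hsh, inv_one, mul_one]
          simp only [Bool.false_eq_true, if_false]
          rw [← hg, hi, htt, Finsupp.single_neg, Finsupp.single_neg]
          abel
        · have hsh : sh L S hS true ⟨e, he⟩ =
              (killed L S hS true).gen ((killed L S hS true).ini ⟨e, he⟩) := by
            unfold sh
            rw [if_pos ⟨hl, rfl⟩]
          rw [hsh]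
          simp only [if_true]
          rw [inv_mul_cancel_right, hi, htt, Finsupp.single_neg, Finsupp.single_neg]
          abel
      · have hsh : sh L S hS b ⟨e, he⟩ = 1 := by
          unfold sh
          rw [if_neg]
          rintro ⟨h, -⟩
          exact hl h
        rw [hsh, inv_one, mul_one, R1_single_notMem L v₀ S hS b hv h1 hl,
          R1_single_notMem L v₀ S hS b hv h1 hl, killed_lab_of_notMem L S hS b ⟨e, he⟩ hl,
          map_mul, al_notMem L v₀ S hS b hv he, al_notMem L v₀ S hS b hv hl, hi, htt]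
  exact DFunLike.congr_fun key c

/-- the leaf condition for the edges inside of `S` -/
def LeafIn (L : LOG V E) (v₀ : V) (S : Set V) : Prop :=
  ∀ T : Finset E, T.Nonempty → (∀ e ∈ T, L.ini e ∈ S) → ∃ e ∈ T, L.ini e ≠ L.ter e ∧
    ∃ u, (u = L.ini e ∨ u = L.ter e) ∧ u ≠ v₀ ∧ ∀ e' ∈ T, e' ≠ e → L.ini e' ≠ u ∧ L.ter e' ≠ u

end

end Pool.Agent.Q172.LT
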