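import Pool.Agent.Q172.LT.Kill2

/-!
# One more 2-cell: asphericity and local indicability
-/

set_option autoImplicit false

namespace Pool.Agent.Q172.LT

open Pool.Agent.TH625.LOG

variable {V E : Type}

theorem bdryF_eq (L : LOG V E) (v₀ : V) (c : (E × Gf L v₀) →₀ ℤ) (d : Gf L v₀ →₀ ℤ) :
    bdryF L v₀ c d = bdHom L (toGf L v₀) c + d.mapDomain (fun g => (v₀, g)) := by
  rw [bdHom_apply]
  rfl

theorem locInd_equiv {A B : Type} [Group A] [Group B] (f : A →* B) (hf : Function.Injective f)
    (h : LocInd B) : LocInd A := by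
  refine LocInd.ext h f fun H _ hne hk => ?_
  exfalso
  apply hne
  rw [eq_bot_iff]
  intro x hx
  have h1 := MonoidHom.mem_ker.1 (hk hx)
  rw [← map_one f] at h1
  exact Subgroup.mem_bot.2 (hf h1)

section

variable (L : LOG V E) (v₀ : V) (S : Set V) (hS : ∀ e, L.ini e ∈ S ↔ L.ter e ∈ S) (b : Bool)
  (hv : v₀ ∈ S) (h1 : ∀ v ∈ S, gf L v₀ v = 1)

include hv h1 in
theorem locInd_kill (h : LocInd (killed L S hS b).G) : LocInd (Gf L v₀) :=
  locInd_equiv (al L v₀ S hS b hv)
    (Function.LeftInverse.injective (be_al L v₀ S hS b h1 hv)) h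

include h1 in
theorem bdHom_in (c : (E × Gf L v₀) →₀ ℤ) (hc : ∀ x ∈ c.support, L.ini x.1 ∈ S) :
    bdHom L (toGf L v₀) c = c.sum fun x n => Finsupp.single (L.ini x.1, x.2) n -
      Finsupp.single (L.ter x.1, x.2 * gf L v₀ (L.lab x.1)) n := by
  have h2 : bdHom L (toGf L v₀) c = c.sum fun x n => bdHom L (toGf L v₀) (Finsupp.single x n) := by
    conv_lhs => rw [← Finsupp.sum_single c]
    rw [Finsupp.sum, map_sum]
    rfl
  rw [h2]
  refine Finsupp.sum_congr fun x hx => ?_
  obtain ⟨e, g⟩ := x
  rw [bdHom_four, toGf_gen, toGf_gen, h1 _ (hc _ hx), mul_one, Finsupp.single_neg,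
    Finsupp.single_neg]
  abel

include hv h1 in
theorem asphericalF_kill (hleaf : LeafIn L v₀ S) (hA : Aspherical (killed L S hS b)) :
    AsphericalF L v₀ := by
  classical
  intro c d h
  rw [bdryF_eq] at h
  have hR : R1 L v₀ S hS b hv h1 (d.mapDomain fun g => (v₀, g)) = 0 := by
    have h2 : d.mapDomain (fun g => (v₀, g)) = ∑ g ∈ d.support, Finsupp.single (v₀, g) (d g) := rfl
    rw [h2, map_sum]
    exact Finset.sum_eq_zero fun g _ => R1_single_mem L v₀ S hS b hv h1 hv g _
  have h2 : R2 L v₀ S hS b hv h1 c = 0 := by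
    apply hA
    rw [bdry_eq, ← chain_map]
    have h3 := congrArg (R1 L v₀ S hS b hv h1) h
    rw [map_add, hR, add_zero, map_zero] at h3
    exact h3
  have hsupp : ∀ x ∈ c.support, L.ini x.1 ∈ S := by
    rintro ⟨e, g⟩ hx
    by_contra he
    have h3 := DFunLike.congr_fun h2 (⟨e, he⟩, al L v₀ S hS b hv g * (sh L S hS b ⟨e, he⟩)⁻¹)
    rw [R2_apply] at h3
    have h4 : f2 L v₀ S hS b h1 (⟨e, he⟩, al L v₀ S hS b hv g * (sh L S hS b ⟨e, he⟩)⁻¹) =
        (e, g) := by
      unfold f2
      rw [inv_mul_cancel_right, be_al]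
    rw [h4] at h3
    exact Finsupp.mem_support_iff.1 hx h3
  have hc : c = 0 := by
    by_contra hne
    obtain ⟨e, he, hie, u, hu, huv, hoth⟩ := hleaf (c.support.image Prod.fst)
      ((Finsupp.support_nonempty_iff.2 hne).image _) (by
        intro e he
        obtain ⟨x, hx, rfl⟩ := Finset.mem_image.1 he
        exact hsupp x hx)
    obtain ⟨⟨e', g⟩, hx, rfl⟩ := Finset.mem_image.1 he
    simp only at hie hu hoth
    have hmap : ∀ y : Gf L v₀, (d.mapDomain fun g => (v₀, g)) (u, y) = 0 := by
      intro y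
      rw [Finsupp.mapDomain_of_notMem_range]
      rintro ⟨z, hz⟩
      exact huv (congrArg Prod.fst hz).symm
    have hval : ∀ y : Gf L v₀, (c.sum fun x n => Finsupp.single (L.ini x.1, x.2) n -
      Finsupp.single (L.ter x.1, x.2 * gf L v₀ (L.lab x.1)) n) (u, y) = 0 := by
      intro y
      rw [← bdHom_in L v₀ S h1 c hsupp]
      have h5 := DFunLike.congr_fun h (u, y)
      rw [Finsupp.add_apply, hmap, add_zero] at h5
      exact h5
    have hcx : c (e', g) ≠ 0 := Finsupp.mem_support_iff.1 hx
    have hz : ∀ (p q : V × Gf L v₀) (n : ℤ), p.1 ≠ q.1 → (Finsupp.single p n) q = 0 := by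
      intro p q n hpq
      rw [Finsupp.single_eq_of_ne]
      intro h6
      first
        | exact hpq (congrArg Prod.fst h6)
        | exact hpq (congrArg Prod.fst h6).symm
    rcases hu with hu | hu
    · have h6 := hval g
      rw [Finsupp.sum, Finset.sum_apply', Finset.sum_eq_single (e', g)] at h6
      · rw [Finsupp.sub_apply, hz (L.ter e', _) (u, g) _ (by rw [hu]; exact hie.symm), sub_zero,
          ← hu, Finsupp.single_eq_same] at h6
        exact hcx h6
      · rintro ⟨e2, g2⟩ hx2 hne2
        rw [Finsupp.sub_apply]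
        by_cases h7 : e2 = e'
        · subst h7
          have h8 : g2 ≠ g := fun h9 => hne2 (by rw [h9])
          rw [hz (L.ter e2, _) (u, g) _ (by rw [hu]; exact hie.symm), sub_zero,
            Finsupp.single_eq_of_ne]
          intro h9
          first
            | exact h8 (congrArg Prod.snd h9)
            | exact h8 (congrArg Prod.snd h9).symm
        · obtain ⟨h8, h9⟩ := hoth e2 (Finset.mem_image_of_mem Prod.fst hx2) h7
          rw [hz (L.ter e2, _) (u, g) _ h9, hz (L.ini e2, _) (u, g) _ h8, sub_zero]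
      · intro hn
        exact absurd hx hn
    · have h6 := hval (g * gf L v₀ (L.lab e'))
      rw [Finsupp.sum, Finset.sum_apply', Finset.sum_eq_single (e', g)] at h6
      · rw [Finsupp.sub_apply, hz (L.ini e', _) (u, _) _ (by rw [hu]; exact hie), zero_sub,
          ← hu, Finsupp.single_eq_same, neg_eq_zero] at h6
        exact hcx h6
      · rintro ⟨e2, g2⟩ hx2 hne2
        rw [Finsupp.sub_apply]
        by_cases h7 : e2 = e'
        · subst h7
          have h8 : g2 ≠ g := fun h9 => hne2 (by rw [h9])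
          rw [hz (L.ini e2, _) (u, _) _ (by rw [hu]; exact hie), zero_sub, neg_eq_zero,
            Finsupp.single_eq_of_ne]
          intro h9
          first
            | exact h8 (mul_right_cancel (congrArg Prod.snd h9))
            | exact h8 (mul_right_cancel (congrArg Prod.snd h9)).symm
        · obtain ⟨h8, h9⟩ := hoth e2 (Finset.mem_image_of_mem Prod.fst hx2) h7
          rw [hz (L.ter e2, _) (u, _) _ h9, hz (L.ini e2, _) (u, _) _ h8, sub_zero]
      · intro hn
        exact absurd hx hn
  refine ⟨hc, ?_⟩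
  rw [hc, map_zero, zero_add] at h
  have hinj : Function.Injective (fun g : Gf L v₀ => (v₀, g)) := fun x y hxy => congrArg Prod.snd hxy
  exact Finsupp.mapDomain_injective hinj (h.trans Finsupp.mapDomain_zero.symm)

end

end Pool.Agent.Q172.LT
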