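import Pool.Agent.Q172.LT.Inf

/-!
# Orientations of labelled trees with good left graphs at all levels: parity and existence
-/

set_option autoImplicit false

namespace Pool.Agent.Q172.LT

open Matrix Pool.Agent.TH625.LOG

/-! ## Forests -/

/-- Subforests; the two entries of a pair may be exchanged. -/
theorem IsForest.comap' {V E V' E' : Type} {a b : E → V} (h : IsForest a b) {a' b' : E' → V'}
    (φ : E' → E) (hφ : Function.Injective φ) (ν : V' → V)
    (hab : ∀ e, (ν (a' e) = a (φ e) ∧ ν (b' e) = b (φ e)) ∨
      (ν (a' e) = b (φ e) ∧ ν (b' e) = a (φ e))) : IsForest a' b' := by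
  classical
  intro F hF
  obtain ⟨_, he, hne, v, hv, h1⟩ := h (F.image φ) (hF.image φ)
  obtain ⟨e, he', rfl⟩ := Finset.mem_image.1 he
  have h2 : ∀ w, ν w = v → ∀ e' ∈ F, e' ≠ e → a' e' ≠ w ∧ b' e' ≠ w := by
    intro w hw e' he'' hne'
    obtain ⟨h3, h4⟩ := h1 (φ e') (Finset.mem_image_of_mem _ he'') (fun h => hne' (hφ h))
    rcases hab e' with ⟨h5, h6⟩ | ⟨h5, h6⟩
    · constructor
      · rintro rfl
        exact h3 (by rw [← h5, hw])
      · rintro rfl
        exact h4 (by rw [← h6, hw])
    · constructor
      · rintro rfl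
        exact h4 (by rw [← h5, hw])
      · rintro rfl
        exact h3 (by rw [← h6, hw])
  refine ⟨e, he', ?_, ?_⟩
  · intro h3
    apply hne
    rcases hab e with ⟨h5, h6⟩ | ⟨h5, h6⟩
    · rw [← h5, ← h6, h3]
    · rw [← h5, ← h6, h3]
  · rcases hab e with ⟨h5, h6⟩ | ⟨h5, h6⟩ <;> rcases hv with hv | hv
    · exact ⟨a' e, Or.inl rfl, h2 _ (by rw [h5, hv])⟩
    · exact ⟨b' e, Or.inr rfl, h2 _ (by rw [h6, hv])⟩
    · exact ⟨b' e, Or.inr rfl, h2 _ (by rw [h6, hv])⟩
    · exact ⟨a' e, Or.inl rfl, h2 _ (by rw [h5, hv])⟩

/-! ## Sums over orientations -/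

section

variable {E : Type} [Fintype E] [DecidableEq E]

/-- If the sums of `D` over the classes of functions which agree at the places of level at least `m`
vanish whenever `P m` does not hold then the conditions `P m` do not change the sum of `D`. -/
theorem sum_filter_lev (D : (E → Bool) → ZMod 2) (lev : E → ℕ) (P : ℕ → (E → Bool) → Prop)
    (hP : ∀ m (o o' : E → Bool), (∀ e, m ≤ lev e → o' e = o e) → P m o → P m o')
    (hD : ∀ m (o : E → Bool), ¬ P m o →
      (∑ o' : E → Bool, open Classical in if ∀ e, m ≤ lev e → o' e = o e then D o' else 0) = 0)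
    (M : ℕ) : ∀ j ≤ M, (∑ o : E → Bool, open Classical in
      if ∀ m, M - j ≤ m → m < M → P m o then D o else 0) = ∑ o : E → Bool, D o := by
  classical
  intro j
  induction j with
  | zero =>
    intro _
    refine Finset.sum_congr rfl fun o _ => ?_
    rw [if_pos]
    intro m h1 h2
    omega
  | succ j ih =>
    intro hj
    rw [← ih (by omega)]
    set i := M - (j + 1) with hi
    have hi' : M - j = i + 1 := by omega
    rw [hi', ← sub_eq_zero, ← Finset.sum_sub_distrib]
    -- the difference is supported where `P i` fails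
    let h : (E → Bool) → ZMod 2 := fun o =>
      if (∀ m, i + 1 ≤ m → m < M → P m o) ∧ ¬ P i o then -1 else 0
    have h1 : ∀ o : E → Bool, ((if ∀ m, i ≤ m → m < M → P m o then D o else 0) -
        if ∀ m, i + 1 ≤ m → m < M → P m o then D o else 0) = h o * D o := by
      intro o
      by_cases hA : ∀ m, i + 1 ≤ m → m < M → P m o
      · by_cases hB : P i o
        · have hC : ∀ m, i ≤ m → m < M → P m o := by
            intro m hm hm'
            rcases Nat.eq_or_lt_of_le hm with rfl | hlt
            · exact hB
            · exact hA m hlt hm'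
          have hh : h o = 0 := if_neg fun hcon => hcon.2 hB
          rw [if_pos hC, if_pos hA, hh, zero_mul, sub_self]
        · have hC : ¬ ∀ m, i ≤ m → m < M → P m o := fun hcon => hB (hcon i le_rfl (by omega))
          have hh : h o = -1 := if_pos ⟨hA, hB⟩
          rw [if_neg hC, if_pos hA, hh]
          ring
      · have hC : ¬ ∀ m, i ≤ m → m < M → P m o := fun hcon =>
          hA fun m hm hm' => hcon m (by omega) hm'
        have hh : h o = 0 := if_neg fun hcon => hA hcon.1
        rw [if_neg hC, if_neg hA, hh, zero_mul, sub_self]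
    rw [Finset.sum_congr rfl fun o _ => h1 o]
    have hinv : ∀ o o' : E → Bool, (∀ e, i ≤ lev e → o' e = o e) → h o' = h o := by
      intro o o' hoo
      have e1 : (∀ m, i + 1 ≤ m → m < M → P m o') ↔ ∀ m, i + 1 ≤ m → m < M → P m o := by
        constructor
        · intro h2 m hm hm'
          exact hP m o' o (fun e he => (hoo e (by omega)).symm) (h2 m hm hm')
        · intro h2 m hm hm'
          exact hP m o o' (fun e he => hoo e (by omega)) (h2 m hm hm')
      have e2 : P i o' ↔ P i o :=
        ⟨hP i o' o (fun e he => (hoo e he).symm), hP i o o' (fun e he => hoo e he)⟩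
      exact if_congr (and_congr e1 (not_congr e2)) rfl rfl
    let π : (E → Bool) → (E → Bool) := fun o e => if i ≤ lev e then o e else false
    rw [← Finset.sum_fiberwise Finset.univ π fun o => h o * D o]
    refine Finset.sum_eq_zero fun p _ => ?_
    by_cases hp : ∃ o₁, π o₁ = p
    · obtain ⟨o₁, rfl⟩ := hp
      have hiff : ∀ o, π o = π o₁ ↔ ∀ e, i ≤ lev e → o e = o₁ e := by
        intro o
        constructor
        · intro h2 e he
          have h3 := congrFun h2 e
          simp only [π, if_pos he] at h3
          exact h3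
        · intro h2
          funext e
          by_cases he : i ≤ lev e
          · simp only [π, if_pos he, h2 e he]
          · simp only [π, if_neg he]
      have h3 : ∑ o ∈ Finset.univ.filter (fun o => π o = π o₁), h o * D o =
          h o₁ * ∑ o' : E → Bool, if ∀ e, i ≤ lev e → o' e = o₁ e then D o' else 0 := by
        rw [Finset.mul_sum, Finset.sum_filter]
        refine Finset.sum_congr rfl fun o _ => ?_
        by_cases h4 : π o = π o₁
        · rw [if_pos h4, if_pos ((hiff o).1 h4), hinv o₁ o ((hiff o).1 h4)]
        · rw [if_neg h4, if_neg (fun h5 => h4 ((hiff o).2 h5)), mul_zero]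
      rw [h3]
      by_cases h5 : P i o₁
      · have hh : h o₁ = 0 := if_neg fun hcon => hcon.2 h5
        rw [hh, zero_mul]
      · rw [hD i o₁ h5, mul_zero]
    · refine Finset.sum_eq_zero fun o ho => ?_
      exact absurd ⟨o, (Finset.mem_filter.1 ho).2⟩ hp

end

/-! ## Determinants modulo 2 -/

section

variable {V E : Type} [DecidableEq V] [Fintype E] [DecidableEq E]

/-- the rows of the two left graphs modulo 2 -/
def rw2 (L : LOG V E) {v₀ : V} (β : E ≃ {v : V // v ≠ v₀}) (e : E) (x : Bool) : E → ZMod 2 :=
  fun e' => (if (if x then L.ter e else L.ini e) = (β e' : V) then 1 else 0) -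
    (if L.lab e = (β e' : V) then 1 else 0)

/-- The determinant with the rows of the orientation at the edges of level at least `m`, and the rows
of the tree at the other edges. -/
def dm (L : LOG V E) {v₀ : V} (β : E ≃ {v : V // v ≠ v₀}) (lev : E → ℕ) (m : ℕ) (o : E → Bool) :
    ZMod 2 :=
  (Matrix.of fun e => if m ≤ lev e then rw2 L β e (o e) else rw2 L β e true + rw2 L β e false).det

theorem dm_sum (L : LOG V E) {v₀ : V} (β : E ≃ {v : V // v ≠ v₀}) (lev : E → ℕ) (m : ℕ)
    (o : E → Bool) : dm L β lev m o = ∑ o' : E → Bool, open Classical in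
      if ∀ e, m ≤ lev e → o' e = o e then (Matrix.of fun e => rw2 L β e (o' e)).det else 0 := by
  classical
  let A : E → Finset Bool := fun e => if m ≤ lev e then {o e} else Finset.univ
  have h1 : (Matrix.of fun e => ∑ b ∈ A e, rw2 L β e b).det =
      ∑ o' ∈ Fintype.piFinset A, (Matrix.of fun e => rw2 L β e (o' e)).det :=
    (Matrix.detRowAlternating (R := ZMod 2) (n := E)).toMultilinearMap.map_sum_finset
      (fun e b => rw2 L β e b) A
  have h2 : (Matrix.of fun e => ∑ b ∈ A e, rw2 L β e b) = Matrix.of fun e =>
      if m ≤ lev e then rw2 L β e (o e) else rw2 L β e true + rw2 L β e false := by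
    congr 1
    funext e
    by_cases he : m ≤ lev e
    · simp only [A, if_pos he, Finset.sum_singleton]
    · simp only [A, if_neg he, Fintype.sum_bool]
  have h3 : Fintype.piFinset A = Finset.univ.filter fun o' => ∀ e, m ≤ lev e → o' e = o e := by
    ext o'
    rw [Fintype.mem_piFinset, Finset.mem_filter]
    constructor
    · intro h
      refine ⟨Finset.mem_univ _, fun e he => ?_⟩
      have h4 := h e
      simp only [A, if_pos he, Finset.mem_singleton] at h4
      exact h4
    · rintro ⟨-, h⟩ e
      by_cases he : m ≤ lev e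
      · simp only [A, if_pos he, Finset.mem_singleton]
        exact h e he
      · simp only [A, if_neg he, Finset.mem_univ]
  unfold dm
  rw [← h2, h1, h3, Finset.sum_filter]

theorem dm_cast (L : LOG V E) {v₀ : V} (β : E ≃ {v : V // v ≠ v₀}) (lev : E → ℕ) (m : ℕ)
    (o : E → Bool) : dm L β lev m o = (((gmat (reorient L o).ini
      (fun e => if m ≤ lev e then L.lab e else (reorient L o).ter e)
      fun e => (β e : V)).det : ℤ) : ZMod 2) := by
  have h := (Int.castRingHom (ZMod 2)).map_det (gmat (reorient L o).ini
      (fun e => if m ≤ lev e then L.lab e else (reorient L o).ter e) fun e => (β e : V))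
  refine Eq.trans ?_ h.symm
  rw [RingHom.mapMatrix_apply]
  unfold dm
  congr 1
  ext1 e e'
  rw [Matrix.map_apply, Int.coe_castRingHom]
  simp only [Matrix.of_apply, gmat, reorient]
  by_cases he : m ≤ lev e
  · simp only [if_pos he, rw2]
    by_cases ho : o e = true
    · simp [ho]
    · simp [ho]
  · simp only [if_neg he, rw2, Pi.add_apply, if_true, Bool.false_eq_true, if_false]
    by_cases ho : o e = true
    · simp only [ho, if_true]
      push_cast
      split_ifs <;> rfl
    · simp only [ho]
      push_cast
      split_ifs <;> rfl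

theorem odd_levels (L : LOG V E) (hL : L.Conn) (v₀ : V) (β : E ≃ {v : V // v ≠ v₀}) (lev : E → ℕ)
    (P : ℕ → (E → Bool) → Prop)
    (hP : ∀ m (o o' : E → Bool), (∀ e, m ≤ lev e → o' e = o e) → P m o → P m o')
    (hF : ∀ m (o : E → Bool), IsForest (reorient L o).ini
      (fun e => if m ≤ lev e then L.lab e else (reorient L o).ter e) → P m o) :
    Odd (Nat.card {o : E → Bool // IsForest (reorient L o).ini (reorient L o).lab ∧
      ∀ m, P m o}) := by
  classical
  have hβ : Function.Injective (fun e => (β e : V)) := Subtype.val_injective.comp β.injective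
  let M : ℕ := Finset.univ.sup lev + 1
  have hM : ∀ m, M ≤ m → ∀ e, ¬ m ≤ lev e := by
    intro m hm e he
    have := Finset.le_sup (f := lev) (Finset.mem_univ e)
    omega
  let D : (E → Bool) → ZMod 2 := fun o => (Matrix.of fun e => rw2 L β e (o e)).det
  have hD0 : ∀ o, D o = (((gmat (reorient L o).ini (reorient L o).lab
      fun e => (β e : V)).det : ℤ) : ZMod 2) := by
    intro o
    have h1 := dm_cast L β lev 0 o
    simp only [Nat.zero_le, if_true] at h1
    refine Eq.trans ?_ h1
    unfold dm
    simp only [Nat.zero_le, if_true]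
    rfl
  have hD1 : ∀ o, D o = if IsForest (reorient L o).ini (reorient L o).lab then 1 else 0 := by
    intro o
    rw [hD0]
    have h1 := det_gmat (reorient L o).ini (reorient L o).lab (fun e => (β e : V)) hβ
    have h2 := det_ne_zero_iff (reorient L o).ini (reorient L o).lab v₀ β
    by_cases h3 : IsForest (reorient L o).ini (reorient L o).lab
    · rw [if_pos h3]
      rcases h1 with h | h | h
      · exact absurd h (h2.2 h3)
      · rw [h]; rfl
      · rw [h]; rfl
    · rw [if_neg h3]
      have h4 : (gmat (reorient L o).ini (reorient L o).lab fun e => (β e : V)).det = 0 := by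
        by_contra h5
        exact h3 (h2.1 h5)
      rw [h4]; rfl
  have htop : ∀ m, M ≤ m → ∀ o, dm L β lev m o = 1 ∧ P m o := by
    intro m hm o
    have h1 : (fun e => if m ≤ lev e then L.lab e else (reorient L o).ter e) =
        (reorient L o).ter := by
      funext e
      rw [if_neg (hM m hm e)]
    have h2 := det_unit (reorient L o) (reorient_conn L hL o) v₀ β
    refine ⟨?_, hF m o ?_⟩
    · rw [dm_cast, h1]
      rcases h2 with h | h <;> rw [h] <;> rfl
    · rw [h1]
      apply isForest_of_det _ _ (fun e => (β e : V))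
      rcases h2 with h | h <;> rw [h] <;> decide
  have hsum : ∑ o : E → Bool, D o = 1 := by
    rw [← (htop M le_rfl fun _ => false).1, dm_sum]
    refine Finset.sum_congr rfl fun o _ => ?_
    rw [if_pos]
    intro e he
    exact absurd he (hM M le_rfl e)
  have hzero : ∀ m (o : E → Bool), ¬ P m o →
      (∑ o' : E → Bool, if ∀ e, m ≤ lev e → o' e = o e then D o' else 0) = 0 := by
    intro m o hPo
    rw [← dm_sum L β lev m o, dm_cast]
    have h1 : (gmat (reorient L o).ini
        (fun e => if m ≤ lev e then L.lab e else (reorient L o).ter e)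
        fun e => (β e : V)).det = 0 := by
      by_contra h2
      exact hPo (hF m o (isForest_of_det _ _ _ h2))
    rw [h1]; rfl
  have hmain := sum_filter_lev D lev P hP hzero M M le_rfl
  rw [hsum] at hmain
  have hiff : ∀ o, (∀ m, M - M ≤ m → m < M → P m o) ↔ ∀ m, P m o := by
    intro o
    constructor
    · intro h m
      rcases Nat.lt_or_ge m M with h1 | h1
      · exact h m (by omega) h1
      · exact (htop m h1 o).2
    · intro h m _ _
      exact h m
  rw [Nat.card_eq_fintype_card, Fintype.card_subtype, ← ZMod.natCast_eq_one_iff_odd,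
    Finset.card_filter, Nat.cast_sum, ← hmain]
  refine Finset.sum_congr rfl fun o _ => ?_
  rw [hD1 o]
  by_cases h1 : IsForest (reorient L o).ini (reorient L o).lab
  · by_cases h2 : ∀ m, P m o
    · rw [if_pos ⟨h1, h2⟩, if_pos ((hiff o).2 h2), if_pos h1, Nat.cast_one]
    · rw [if_neg (fun h => h2 h.2), if_neg (fun h => h2 ((hiff o).1 h)), Nat.cast_zero]
  · rw [if_neg (fun h => h1 h.1), if_neg h1, Nat.cast_zero]
    split_ifs <;> rfl

end

end Pool.Agent.Q172.LT
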