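import Pool.Agent.Q172.LT.Branch

/-!
# Rooted labelled trees
-/

set_option autoImplicit false

namespace Pool.Agent.Q172.LT

open Pool.Agent.TH625.LOG

variable {V E : Type}

/-- The graph of `L` is a tree with root `v₀`, finite or infinite: every vertex other than `v₀` is
the upper end `child e` of exactly one edge `e`, and the depth of the lower end `par e` is smaller by
one. -/
structure Rooted (L : LOG V E) (v₀ : V) where
  child : E → V
  par : E → V
  dep : V → ℕ
  ends : ∀ e, (L.ini e = child e ∧ L.ter e = par e) ∨ (L.ini e = par e ∧ L.ter e = child e)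
  inj : Function.Injective child
  ne : ∀ e, child e ≠ v₀
  surj : ∀ v, v ≠ v₀ → ∃ e, child e = v
  dep_child : ∀ e, dep (child e) = dep (par e) + 1

namespace Rooted

variable {L : LOG V E} {v₀ : V} (r : Rooted L v₀)

/-- `y` lies above `x` or is equal to `x`. -/
def Desc (x y : V) : Prop := Relation.ReflTransGen (fun x y => ∃ e, r.par e = x ∧ r.child e = y) x y

/-- the branch of the tree above `v` -/
def branch (v : V) : Set V := {w | r.Desc v w}

theorem desc_refl (v : V) : r.Desc v v := Relation.ReflTransGen.refl

theorem desc_dep {x y : V} (h : r.Desc x y) : r.dep x ≤ r.dep y := by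
  induction h with
  | refl => exact le_rfl
  | tail _ h ih =>
    obtain ⟨e, rfl, rfl⟩ := h
    rw [r.dep_child]
    omega

theorem desc_child {x : V} {e : E} (h : r.Desc x (r.par e)) : r.Desc x (r.child e) :=
  h.tail ⟨e, rfl, rfl⟩

theorem desc_cases {x : V} {e : E} (h : r.Desc x (r.child e)) :
    x = r.child e ∨ r.Desc x (r.par e) := by
  rcases Relation.ReflTransGen.cases_tail h with h1 | ⟨y, h1, e', rfl, h2⟩
  · exact Or.inl h1.symm
  · rw [r.inj h2] at h1
    exact Or.inr h1

theorem desc_root (v : V) : r.Desc v₀ v := by
  have key : ∀ n v, r.dep v = n → r.Desc v₀ v := by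
    intro n
    induction n using Nat.strong_induction_on with
    | _ n ih =>
      intro v hv
      by_cases h : v = v₀
      · rw [h]
        exact r.desc_refl _
      · obtain ⟨e, rfl⟩ := r.surj v h
        refine r.desc_child (ih (r.dep (r.par e)) ?_ _ rfl)
        rw [← hv, r.dep_child]
        omega
  exact key _ v rfl

theorem desc_of_dep {u v x : V} (hu : r.Desc u x) (hv : r.Desc v x) (h : r.dep v ≤ r.dep u) :
    r.Desc v u := by
  have key : ∀ n x, r.dep x = n → r.Desc u x → r.Desc v x → r.Desc v u := by
    intro n
    induction n using Nat.strong_induction_on with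
    | _ n ih =>
      intro x hx hu hv
      by_cases h0 : x = v₀
      · subst h0
        have h1 : u = x := by
          rcases Relation.ReflTransGen.cases_tail hu with h1 | ⟨y, _, e, _, h2⟩
          · exact h1.symm
          · exact absurd h2 (r.ne e)
        rw [h1]
        exact hv
      · obtain ⟨e, rfl⟩ := r.surj x h0
        rcases r.desc_cases hu with h1 | h1
        · rw [h1]
          exact hv
        · rcases r.desc_cases hv with h2 | h2
          · have h3 := r.desc_dep h1
            have h4 := r.dep_child e
            rw [← h2] at h4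
            omega
          · refine ih (r.dep (r.par e)) ?_ _ rfl h1 h2
            rw [← hx, r.dep_child]
            omega
  exact key _ x rfl hu hv

theorem not_desc_par (e : E) : ¬ r.Desc (r.child e) (r.par e) := by
  intro h
  have h1 := r.desc_dep h
  rw [r.dep_child] at h1
  omega

/-- a reorientation has the same root structure -/
def reor (o : E → Bool) : Rooted (reorient L o) v₀ where
  child := r.child
  par := r.par
  dep := r.dep
  ends := by
    intro e
    simp only [reorient]
    by_cases ho : o e = true
    · simp only [ho, if_true]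
      rcases r.ends e with ⟨h1, h2⟩ | ⟨h1, h2⟩
      · exact Or.inr ⟨h2, h1⟩
      · exact Or.inl ⟨h2, h1⟩
    · simp only [ho, if_false, Bool.false_eq_true]
      exact r.ends e
  inj := r.inj
  ne := r.ne
  surj := r.surj
  dep_child := r.dep_child

include r in
theorem rows_indep : LinearIndependent ℚ fun e : E => row (L.ini e) (L.ter e) := by
  classical
  -- up to signs these are the vectors `child e - par e`
  have key : LinearIndependent ℚ fun e : E => row (r.child e) (r.par e) := by
    let φ : E → V → ℚ := fun e v => if r.Desc (r.child e) v then 1 else 0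
    have hφ : ∀ e f, φ e (r.child f) - φ e (r.par f) = if f = e then 1 else 0 := by
      intro e f
      by_cases hf : f = e
      · subst hf
        simp only [φ]
        rw [if_pos (r.desc_refl _), if_neg (r.not_desc_par f)]
        simp
      · rw [if_neg hf]
        by_cases h1 : r.Desc (r.child e) (r.par f)
        · simp only [φ]
          rw [if_pos (r.desc_child h1), if_pos h1, sub_self]
        · have h2 : ¬ r.Desc (r.child e) (r.child f) := by
            intro h3
            rcases r.desc_cases h3 with h4 | h4
            · exact hf (r.inj h4).symm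
            · exact h1 h4
          simp only [φ]
          rw [if_neg h2, if_neg h1, sub_self]
    have hval : ∀ e f : E, (Finsupp.lsum ℚ fun v => LinearMap.toSpanSingleton ℚ ℚ (φ e v))
        (row (r.child f) (r.par f)) = if f = e then 1 else 0 := by
      intro e f
      rw [row, map_sub, Finsupp.lsum_single, Finsupp.lsum_single,
        LinearMap.toSpanSingleton_apply, LinearMap.toSpanSingleton_apply, one_smul, one_smul]
      exact hφ e f
    refine LinearIndependent.of_pairwise_dual_eq_zero_one _
      (fun e => Finsupp.lsum ℚ fun v => LinearMap.toSpanSingleton ℚ ℚ (φ e v)) ?_ ?_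
    · intro e f hef
      rw [hval e f, if_neg hef.symm]
    · intro e
      rw [hval e e, if_pos rfl]
  have h1 : (fun e : E => row (L.ini e) (L.ter e)) = (fun e : E =>
      (if L.ini e = r.child e ∧ L.ter e = r.par e then (1 : ℚˣ) else -1)) •
        fun e : E => row (r.child e) (r.par e) := by
    funext e
    rw [Pi.smul_apply']
    by_cases h : L.ini e = r.child e ∧ L.ter e = r.par e
    · rw [if_pos h, one_smul, h.1, h.2]
    · rw [if_neg h]
      rcases r.ends e with h2 | h2
      · exact absurd h2 h
      · rw [h2.1, h2.2]
        simp only [row, Units.neg_smul, one_smul]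
        abel
  rw [h1]
  exact key.units_smul _

/-! ## Levels -/

open Classical in
/-- the depth of the lowest common ancestor of the two ends and the label of an edge -/
noncomputable def lev (f : E) : ℕ :=
  Nat.findGreatest (fun m => ∃ v, m ≤ r.dep v ∧ r.Desc v (L.ini f) ∧ r.Desc v (L.ter f) ∧
    r.Desc v (L.lab f)) (r.dep (L.ini f))

theorem le_lev (f : E) (m : ℕ) : m ≤ r.lev f ↔ ∃ v, m ≤ r.dep v ∧ r.Desc v (L.ini f) ∧
    r.Desc v (L.ter f) ∧ r.Desc v (L.lab f) := by
  classical
  set Q : ℕ → Prop := fun m => ∃ v, m ≤ r.dep v ∧ r.Desc v (L.ini f) ∧ r.Desc v (L.ter f) ∧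
    r.Desc v (L.lab f) with hQ
  have h0 : Q 0 := ⟨v₀, Nat.zero_le _, r.desc_root _, r.desc_root _, r.desc_root _⟩
  constructor
  · intro h
    have h1 : Q (r.lev f) := Nat.findGreatest_spec (P := Q) (Nat.zero_le _) h0
    obtain ⟨v, h2, h3⟩ := h1
    exact ⟨v, h.trans h2, h3⟩
  · rintro ⟨v, h2, h3⟩
    exact Nat.le_findGreatest (h2.trans (r.desc_dep h3.1)) ⟨v, h2, h3⟩

/-- The edges with both ends in the branch above `v` whose level is at least the depth of `v` are
those whose label lies in the branch. -/
theorem lev_branch (v : V) (f : E) (hi : r.Desc v (L.ini f)) (ht : r.Desc v (L.ter f)) :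
    r.dep v ≤ r.lev f ↔ r.Desc v (L.lab f) := by
  rw [r.le_lev]
  constructor
  · rintro ⟨u, h1, h2, -, h4⟩
    exact (r.desc_of_dep h2 hi h1).trans h4
  · intro h
    exact ⟨v, le_rfl, hi, ht, h⟩

/-- **Parity.** The number of the orientations of a finite labelled tree whose left graphs are
forests at all branches is odd. -/
theorem odd_branches [DecidableEq V] [Fintype E] [DecidableEq E] (hL : L.Conn)
    (β : E ≃ {v : V // v ≠ v₀}) :
    Odd (Nat.card {o : E → Bool // ∀ v, LeftOn (reorient L o) (r.branch v)}) := by
  have h := odd_levels L hL v₀ β r.lev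
    (fun m o => ∀ v, r.dep v = m → LeftOn (reorient L o) (r.branch v))
    (fun m o o' hoo ho v hv => by
      refine leftOn_congr L _ o o' (fun e h1 h2 h3 => ?_) (ho v hv)
      refine hoo e ?_
      rw [← hv]
      exact (r.lev_branch v e h1 h2).2 h3)
    (by
      intro m o hF v hv
      refine leftOn_of L _ o _ _ hF ?_ ?_
      · intro e he hl
        rw [if_pos (hv ▸ (r.lev_branch v e he.1 he.2).2 hl)]
        exact ⟨rfl, rfl⟩
      · intro e he hl
        rw [if_neg (fun h1 => hl ((r.lev_branch v e he.1 he.2).1 (hv ▸ h1)))]
        exact Or.inl ⟨rfl, rfl⟩)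
  have h1 : Nat.card {o : E → Bool // ∀ v, LeftOn (reorient L o) (r.branch v)} =
      Nat.card {o : E → Bool // IsForest (reorient L o).ini (reorient L o).lab ∧
        ∀ m v, r.dep v = m → LeftOn (reorient L o) (r.branch v)} := by
    refine Nat.card_congr (Equiv.subtypeEquivRight fun o => ?_)
    constructor
    · intro h
      refine ⟨?_, fun m v _ => h v⟩
      have h2 := h v₀
      have h3 : r.branch v₀ = Set.univ := Set.eq_univ_of_forall r.desc_root
      rw [h3] at h2
      exact leftOn_univ _ h2
    · intro h v
      exact h.2 _ v rfl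
  rw [h1]
  exact h

/-- **Existence.** Every labelled tree, finite or infinite, has an orientation whose left graphs are
forests at all branches. -/
theorem exists_branches : ∃ o : E → Bool, ∀ v, LeftOn (reorient L o) (r.branch v) := by
  obtain ⟨o, ho⟩ := exists_levels L r.rows_indep r.lev
  refine ⟨o, fun v => leftOn_of L _ o _ _ (ho (r.dep v)) ?_ ?_⟩
  · intro e he hl
    have h1 := (r.lev_branch v e he.1 he.2).2 hl
    simp only [if_pos h1]
    exact ⟨trivial, trivial⟩
  · intro e he hl
    have h1 : ¬ r.dep v ≤ r.lev e := fun h1 => hl ((r.lev_branch v e he.1 he.2).1 h1)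
    simp only [if_neg h1, reorient]
    cases o e <;> simp

end Rooted

end Pool.Agent.Q172.LT
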