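import Pool.Agent.Q172.LT.Root
import Pool.Agent.Q172.LT.Kill3

/-!
# Subcomplexes with the additional 2-cell
-/

set_option autoImplicit false

namespace Pool.Agent.Q172.LT

open Pool.Agent.TH625.LOG

variable {V E : Type}

/-- The vertices which are joined with `v₀` by edges of `L`. -/
def joined (L : LOG V E) (v₀ : V) : Set V := {v | Relation.ReflTransGen L.Adj v₀ v}

theorem joined_ends (L : LOG V E) (v₀ : V) (e : E) :
    L.ini e ∈ joined L v₀ ↔ L.ter e ∈ joined L v₀ :=
  ⟨fun h => Relation.ReflTransGen.tail h ⟨e, Or.inl ⟨rfl, rfl⟩⟩,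
    fun h => Relation.ReflTransGen.tail h ⟨e, Or.inr ⟨rfl, rfl⟩⟩⟩

theorem gf_joined (L : LOG V E) (v₀ : V) : ∀ v ∈ joined L v₀, gf L v₀ v = 1 := by
  intro v hv
  induction hv with
  | refl => exact gf_zero L v₀
  | tail _ hadj ih =>
    obtain ⟨e, ⟨h1, h2⟩ | ⟨h1, h2⟩⟩ := hadj
    · have h3 := gf_rel L v₀ e
      rw [h1, h2, ih, one_mul] at h3
      exact (mul_eq_left.1 h3.symm)
    · have h3 := gf_rel L v₀ e
      rw [h1, h2, ih, mul_one] at h3
      exact (mul_eq_right.1 h3)

/-- The complex with the 1-cells `W`, the 2-cells `F` and the additional 2-cell `f`, attached along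
`x_{v₀}`, is aspherical and its fundamental group is locally indicable. -/
def GoodF (L : LOG V E) (v₀ : V) : Prop := AsphericalF L v₀ ∧ LocInd (Gf L v₀)

theorem goodF_sub (L : LOG V E) {v₀ : V} (r : Rooted L v₀) (W : Set V) (F : Set E)
    (h : ∀ e ∈ F, L.ini e ∈ W ∧ L.ter e ∈ W ∧ L.lab e ∈ W) (hv : v₀ ∈ W) (C : Set V)
    (hC : ∀ w : W, w ∈ joined (sub L W F h) ⟨v₀, hv⟩ ↔ (w : V) ∉ C)
    (htest : LeftOn L C ∨ RightOn L C) : GoodF (sub L W F h) ⟨v₀, hv⟩ := by
  classical
  set L' := sub L W F h with hL'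
  set w₀ : W := ⟨v₀, hv⟩ with hw₀
  set S : Set W := joined L' w₀ with hSdef
  have hS : ∀ e, L'.ini e ∈ S ↔ L'.ter e ∈ S := joined_ends L' w₀
  have hin : w₀ ∈ S := Relation.ReflTransGen.refl
  have h1 := gf_joined L' w₀
  have hCm : ∀ w : W, w ∉ S ↔ (w : V) ∈ C := by
    intro w
    rw [hC w, not_not]
  have hleaf : LeafIn L' w₀ S := by
    intro T hT _
    obtain ⟨e, he, hmax⟩ := T.exists_max_image (fun e => r.dep (r.child e)) hT
    have hoth : ∀ e' ∈ T, e' ≠ e → r.child e' ≠ r.child e ∧ r.par e' ≠ r.child e := by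
      intro e' he' hne
      refine ⟨fun h2 => hne (Subtype.ext (r.inj h2)), fun h2 => ?_⟩
      have h3 := hmax e' he'
      rw [r.dep_child e', h2] at h3
      omega
    have hends : ∀ e' : F, ((L'.ini e' : V) = r.child e' ∧ (L'.ter e' : V) = r.par e') ∨
        ((L'.ini e' : V) = r.par e' ∧ (L'.ter e' : V) = r.child e') := fun e' => r.ends e'
    have hcp : r.child e ≠ r.par e := by
      intro h2
      have h3 := r.dep_child e
      rw [h2] at h3
      omega
    have hne' : ∀ u : W, (u : V) = r.child e → u ≠ w₀ ∧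
        ∀ e' ∈ T, e' ≠ e → L'.ini e' ≠ u ∧ L'.ter e' ≠ u := by
      intro u hu
      refine ⟨fun h2 => r.ne e ?_, fun e' he' hne => ?_⟩
      · rw [← hu, h2]
      · obtain ⟨h3, h4⟩ := hoth e' he' hne
        constructor
        · intro h5
          rcases hends e' with h6 | h6
          · exact h3 (by rw [← h6.1, h5, hu])
          · exact h4 (by rw [← h6.1, h5, hu])
        · intro h5
          rcases hends e' with h6 | h6
          · exact h4 (by rw [← h6.2, h5, hu])
          · exact h3 (by rw [← h6.2, h5, hu])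
    refine ⟨e, he, ?_, ?_⟩
    · intro h2
      have h3 := congrArg Subtype.val h2
      rcases hends e with h6 | h6
      · exact hcp (by rw [← h6.1, ← h6.2, h3])
      · exact hcp (by rw [← h6.1, ← h6.2, h3])
    · rcases hends e with h6 | h6
      · exact ⟨L'.ini e, Or.inl rfl, hne' _ h6.1⟩
      · exact ⟨L'.ter e, Or.inr rfl, hne' _ h6.2⟩
  have hgood : ∃ b : Bool, Good (killed L' S hS b) := by
    rcases htest with ht | ht
    · refine ⟨false, good_of_A _ (freeSidesA_left _ ?_)⟩
      refine ht.comap (fun e => ⟨e.1.1, (hCm _).1 e.2, (hCm (L'.ter e.1)).1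
        (fun h2 => e.2 ((hS e.1).2 h2))⟩)
        (fun x y hxy => Subtype.ext (Subtype.ext (congrArg (fun z => z.1) hxy)))
        (fun v => ((v : W) : V)) (fun _ => rfl) (fun e => ?_)
      by_cases hl : L'.lab e.1 ∈ S
      · have hl2 : L.lab e.1.1 ∉ C := (hC _).1 hl
        rw [killed_lab_of_mem L' S hS false e hl]
        exact (alt_notMem hl2 (L.ter e.1.1)).symm
      · have hl2 : L.lab e.1.1 ∈ C := (hCm _).1 hl
        rw [killed_lab_of_notMem L' S hS false e hl]
        exact (alt_mem hl2 (L.ter e.1.1)).symm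
    · refine ⟨true, good_of_A _ (freeSidesA_right _ ?_)⟩
      refine ht.comap (fun e => ⟨e.1.1, (hCm _).1 e.2, (hCm (L'.ter e.1)).1
        (fun h2 => e.2 ((hS e.1).2 h2))⟩)
        (fun x y hxy => Subtype.ext (Subtype.ext (congrArg (fun z => z.1) hxy)))
        (fun v => ((v : W) : V)) (fun _ => rfl) (fun e => ?_)
      by_cases hl : L'.lab e.1 ∈ S
      · have hl2 : L.lab e.1.1 ∉ C := (hC _).1 hl
        rw [killed_lab_of_mem L' S hS true e hl]
        exact (alt_notMem hl2 (L.ini e.1.1)).symm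
      · have hl2 : L.lab e.1.1 ∈ C := (hCm _).1 hl
        rw [killed_lab_of_notMem L' S hS true e hl]
        exact (alt_mem hl2 (L.ini e.1.1)).symm
  obtain ⟨b, hb⟩ := hgood
  exact ⟨asphericalF_kill L' w₀ S hS b hin h1 hleaf hb.1,
    locInd_kill L' w₀ S hS b hin h1 hb.2.2⟩

/-! ## Roots of trees -/

/-- `v` can be reached from `v₀` in `n` steps -/
def reach (L : LOG V E) (v₀ : V) : ℕ → V → Prop
  | 0, v => v = v₀
  | n + 1, v => ∃ x, reach L v₀ n x ∧ L.Adj x v

theorem exists_up (L : LOG V E) (hL : L.Conn) (v₀ : V) :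
    ∃ (dep : V → ℕ) (up : {v : V // v ≠ v₀} → E) (low : {v : V // v ≠ v₀} → V),
      (∀ v, (L.ini (up v) = v ∧ L.ter (up v) = low v) ∨
        (L.ini (up v) = low v ∧ L.ter (up v) = v)) ∧ ∀ v : {v : V // v ≠ v₀}, dep v = dep (low v) + 1 := by
  classical
  have hex : ∀ v, ∃ n, reach L v₀ n v := by
    intro v
    induction hL v₀ v with
    | refl => exact ⟨0, rfl⟩
    | tail _ h ih =>
      obtain ⟨n, hn⟩ := ih
      exact ⟨n + 1, _, hn, h⟩
  let dep : V → ℕ := fun v => Nat.find (hex v)
  have hdep : ∀ v, reach L v₀ (dep v) v := fun v => Nat.find_spec (hex v)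
  have hmin : ∀ v n, reach L v₀ n v → dep v ≤ n := fun v n h => Nat.find_min' (hex v) h
  have key : ∀ v : {v : V // v ≠ v₀}, ∃ (e : E) (x : V),
      ((L.ini e = v ∧ L.ter e = x) ∨ (L.ini e = x ∧ L.ter e = v)) ∧ dep v = dep x + 1 := by
    intro v
    have h1 := hdep v
    cases hn : dep v with
    | zero =>
      rw [hn] at h1
      exact absurd h1 v.2
    | succ n =>
      rw [hn] at h1
      obtain ⟨x, hx, e, he⟩ := h1
      refine ⟨e, x, ?_, ?_⟩
      · rcases he with ⟨h2, h3⟩ | ⟨h2, h3⟩
        · exact Or.inr ⟨h2, h3⟩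
        · exact Or.inl ⟨h3, h2⟩
      · have h4 := hmin x n hx
        have h5 := hmin v (dep x + 1) ⟨x, hdep x, e, he⟩
        omega
  choose up low h1 h2 using key
  exact ⟨dep, up, low, h1, h2⟩

theorem up_injective (L : LOG V E) (v₀ : V) (dep : V → ℕ) (up : {v : V // v ≠ v₀} → E)
    (low : {v : V // v ≠ v₀} → V)
    (h : ∀ v, (L.ini (up v) = v ∧ L.ter (up v) = low v) ∨
        (L.ini (up v) = low v ∧ L.ter (up v) = v)) (hd : ∀ v : {v : V // v ≠ v₀}, dep v = dep (low v) + 1) :
    Function.Injective up := by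
  intro v w hvw
  have h1 := h v
  have h2 := h w
  rw [hvw] at h1
  have h3 := hd v
  have h4 := hd w
  apply Subtype.ext
  rcases h1 with ⟨a1, a2⟩ | ⟨a1, a2⟩ <;> rcases h2 with ⟨b1, b2⟩ | ⟨b1, b2⟩
  · rw [← a1, b1]
  · exfalso
    have c1 : (v : V) = low w := by rw [← a1, b1]
    have c2 : (w : V) = low v := by rw [← b2, a2]
    rw [c1] at h3
    rw [c2] at h4
    rw [← c1] at h3 h4
    rw [← c2] at h3 h4
    omega
  · exfalso
    have c1 : (v : V) = low w := by rw [← a2, b2]
    have c2 : (w : V) = low v := by rw [← b1, a1]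
    rw [c1] at h3
    rw [c2] at h4
    rw [← c1] at h3 h4
    rw [← c2] at h3 h4
    omega
  · rw [← a2, b2]

/-- the root structure -/
noncomputable def rootedOf (L : LOG V E) (v₀ : V) (dep : V → ℕ) (up : {v : V // v ≠ v₀} → E)
    (low : {v : V // v ≠ v₀} → V)
    (h : ∀ v, (L.ini (up v) = v ∧ L.ter (up v) = low v) ∨
        (L.ini (up v) = low v ∧ L.ter (up v) = v)) (hd : ∀ v : {v : V // v ≠ v₀}, dep v = dep (low v) + 1)
    (hs : Function.Surjective up) : Rooted L v₀ :=
  let φ := Equiv.ofBijective up ⟨up_injective L v₀ dep up low h hd, hs⟩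
  { child := fun e => φ.symm e
    par := fun e => low (φ.symm e)
    dep := dep
    ends := by
      intro e
      have h1 := h (φ.symm e)
      have h2 : up (φ.symm e) = e := φ.apply_symm_apply e
      rw [h2] at h1
      exact h1
    inj := fun x y hxy => φ.symm.injective (Subtype.ext hxy)
    ne := fun e => (φ.symm e).2
    surj := fun v hv => ⟨φ ⟨v, hv⟩, by rw [Equiv.symm_apply_apply]⟩
    dep_child := fun e => hd _ }

theorem exists_rooted_finite [Fintype V] [Fintype E] (L : LOG V E) (hL : L.Conn)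
    (hc : Fintype.card V = Fintype.card E + 1) (v₀ : V) : Nonempty (Rooted L v₀) := by
  classical
  obtain ⟨dep, up, low, h, hd⟩ := exists_up L hL v₀
  refine ⟨rootedOf L v₀ dep up low h hd ?_⟩
  have h1 : Fintype.card {v : V // v ≠ v₀} = Fintype.card E := by
    rw [Fintype.card_subtype_compl, Fintype.card_subtype_eq, hc]
    simp
  exact ((Fintype.bijective_iff_injective_and_card up).2
    ⟨up_injective L v₀ dep up low h hd, h1⟩).2

theorem exists_rooted (L : LOG V E) (hL : L.Conn) (ha : Acyclic L) (v₀ : V) :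
    Nonempty (Rooted L v₀) := by
  classical
  obtain ⟨dep, up, low, h, hd⟩ := exists_up L hL v₀
  refine ⟨rootedOf L v₀ dep up low h hd ?_⟩
  intro e
  by_contra hcon
  push Not at hcon
  -- every vertex is joined with `v₀` by edges other than `e`
  have key : ∀ n v, dep v = n → Relation.ReflTransGen (AdjOff L e) v v₀ := by
    intro n
    induction n using Nat.strong_induction_on with
    | _ n ih =>
      intro v hv
      by_cases h0 : v = v₀
      · rw [h0]
      · have h1 := hd ⟨v, h0⟩
        have h2 := ih (dep (low ⟨v, h0⟩)) (by rw [← hv]; show dep _ < dep (⟨v, h0⟩ : {v // v ≠ v₀}); omega)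
          _ rfl
        refine Relation.ReflTransGen.head ?_ h2
        refine ⟨up ⟨v, h0⟩, hcon _, ?_⟩
        rcases h ⟨v, h0⟩ with h3 | h3
        · exact Or.inl h3
        · exact Or.inr ⟨h3.2, h3.1⟩
  refine ha e ((key _ _ rfl).trans ?_)
  exact rtg_symm (fun x y hxy => adjOff_symm L e hxy) (key _ (L.ter e) rfl)

namespace Rooted

variable {L : LOG V E} {v₀ : V} (r : Rooted L v₀)

/-- The side of `v₀` of an edge is the complement of a branch. -/
theorem near_iff (e : E) (w : V) :
    Relation.ReflTransGen (AdjOff L e) v₀ w ↔ w ∉ r.branch (r.child e) := by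
  have hstep : ∀ f, f ≠ e → (r.Desc (r.child e) (r.child f) ↔ r.Desc (r.child e) (r.par f)) := by
    intro f hf
    refine ⟨fun h => ?_, fun h => r.desc_child h⟩
    rcases r.desc_cases h with h1 | h1
    · exact absurd (r.inj h1).symm hf
    · exact h1
  constructor
  · intro h
    induction h with
    | refl =>
      intro h1
      rcases Relation.ReflTransGen.cases_tail h1 with h2 | ⟨_, _, f, _, h2⟩
      · exact r.ne e h2.symm
      · exact r.ne f h2
    | @tail x y _ hadj ih =>
      intro h1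
      apply ih
      obtain ⟨f, hf, hxy⟩ := hadj
      have h2 := hstep f hf
      have h3 := r.ends f
      show r.Desc (r.child e) x
      have h1' : r.Desc (r.child e) y := h1
      rcases hxy with ⟨a1, a2⟩ | ⟨a1, a2⟩ <;> rcases h3 with ⟨b1, b2⟩ | ⟨b1, b2⟩
      · rw [← a1, b1]; rw [← a2, b2] at h1'; exact h2.2 h1'
      · rw [← a1, b1]; rw [← a2, b2] at h1'; exact h2.1 h1'
      · rw [← a1, b2]; rw [← a2, b1] at h1'; exact h2.1 h1'
      · rw [← a1, b2]; rw [← a2, b1] at h1'; exact h2.2 h1'
  · have key : ∀ n w, r.dep w = n → w ∉ r.branch (r.child e) →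
        Relation.ReflTransGen (AdjOff L e) v₀ w := by
      intro n
      induction n using Nat.strong_induction_on with
      | _ n ih =>
        intro w hw hn
        by_cases h0 : w = v₀
        · rw [h0]
        · obtain ⟨f, rfl⟩ := r.surj w h0
          have hf : f ≠ e := by
            rintro rfl
            exact hn (r.desc_refl _)
          have h1 : r.par f ∉ r.branch (r.child e) := fun h2 => hn (r.desc_child h2)
          refine (ih (r.dep (r.par f)) (by rw [← hw, r.dep_child]; omega) _ rfl h1).tail ?_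
          refine ⟨f, hf, ?_⟩
          rcases r.ends f with h3 | h3
          · exact Or.inr ⟨h3.2, h3.1⟩
          · exact Or.inl h3
    exact key _ w rfl

end Rooted

end Pool.Agent.Q172.LT
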