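import Pool.Agent.Q172.LT.Leaf

/-!
# Determinants of graphs

The matrix with rows `[a e] - [b e]`, restricted to as many columns as it has rows: its determinant
is `0`, `1` or `-1`; with one column deleted it is nonzero if and only if the graph is a forest.
-/

set_option autoImplicit false

namespace Pool.Agent.Q172.LT

open Matrix

variable {V : Type} [DecidableEq V]

/-- The matrix with the rows `[a e] - [b e]` and the columns `β e'`. -/
def gmat {ι : Type} (a b β : ι → V) : Matrix ι ι ℤ :=
  Matrix.of fun e e' => (if a e = β e' then 1 else 0) - (if b e = β e' then 1 else 0)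

theorem sum_ind {ι : Type} [Fintype ι] (β : ι → V) (hβ : Function.Injective β) (j : ι) :
    ∑ k, (if β j = β k then (1 : ℤ) else 0) = 1 := by
  classical
  rw [Finset.sum_eq_single j]
  · simp
  · intro k _ hk
    rw [if_neg]
    intro h
    exact hk (hβ h).symm
  · intro h
    exact absurd (Finset.mem_univ _) h

theorem unit_mul {s d : ℤ} (hs : s = 1 ∨ s = -1) (hd : d = 0 ∨ d = 1 ∨ d = -1) :
    s * d = 0 ∨ s * d = 1 ∨ s * d = -1 := by
  rcases hs with rfl | rfl <;> rcases hd with rfl | rfl | rfl <;> simp

theorem det_fin : ∀ (n : ℕ) (a b β : Fin n → V), Function.Injective β →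
    (gmat a b β).det = 0 ∨ (gmat a b β).det = 1 ∨ (gmat a b β).det = -1 := by
  intro n
  induction n with
  | zero =>
    intro a b β _
    exact Or.inr (Or.inl det_fin_zero)
  | succ n ih =>
    intro a b β hβ
    by_cases h : ∀ i, a i = b i ∨ ((∃ j, a i = β j) ∧ ∃ j, b i = β j)
    · left
      rw [← Matrix.exists_mulVec_eq_zero_iff]
      refine ⟨fun _ => 1, ?_, ?_⟩
      · intro h0
        exact one_ne_zero (congrFun h0 0)
      · funext i
        show ∑ j, gmat a b β i j * 1 = 0
        simp only [mul_one, gmat, Matrix.of_apply, Finset.sum_sub_distrib]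
        rcases h i with h1 | ⟨⟨j, hj⟩, ⟨j', hj'⟩⟩
        · rw [h1, sub_self]
        · rw [hj, hj', sum_ind β hβ, sum_ind β hβ, sub_self]
    · push Not at h
      obtain ⟨i, hne, hi⟩ := h
      have hpow : ∀ j : Fin (n + 1), ((-1 : ℤ) ^ ((i : ℕ) + (j : ℕ)) = 1 ∨
          (-1 : ℤ) ^ ((i : ℕ) + (j : ℕ)) = -1) := fun j => neg_one_pow_eq_or ℤ _
      have hsub : ∀ j : Fin (n + 1), (gmat a b β).submatrix i.succAbove j.succAbove =
          gmat (a ∘ i.succAbove) (b ∘ i.succAbove) (β ∘ j.succAbove) := fun j => rfl
      by_cases ha : ∃ j, a i = β j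
      · have hb := hi ha
        obtain ⟨j, hj⟩ := ha
        have hrow : ∀ k, gmat a b β i k = if k = j then 1 else 0 := by
          intro k
          simp only [gmat, Matrix.of_apply, if_neg (hb k), sub_zero, hj]
          by_cases hk : k = j
          · subst hk; simp
          · rw [if_neg, if_neg hk]
            intro h
            exact hk (hβ h).symm
        rw [det_succ_row _ i, Finset.sum_eq_single j]
        · rw [hrow j, if_pos rfl, mul_one, hsub]
          exact unit_mul (hpow j) (ih _ _ _ (hβ.comp (Fin.succAbove_right_injective)))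
        · intro k _ hk
          rw [hrow k, if_neg hk, mul_zero, zero_mul]
        · intro h
          exact absurd (Finset.mem_univ _) h
      · push Not at ha
        by_cases hb : ∃ j, b i = β j
        · obtain ⟨j, hj⟩ := hb
          have hrow : ∀ k, gmat a b β i k = if k = j then -1 else 0 := by
            intro k
            simp only [gmat, Matrix.of_apply, if_neg (ha k), zero_sub, hj]
            by_cases hk : k = j
            · subst hk; simp
            · rw [if_neg, if_neg hk, neg_zero]
              intro h
              exact hk (hβ h).symm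
          rw [det_succ_row _ i, Finset.sum_eq_single j]
          · rw [hrow j, if_pos rfl, hsub]
            refine unit_mul ?_ (ih _ _ _ (hβ.comp (Fin.succAbove_right_injective)))
            rcases hpow j with h | h <;> rw [h] <;> simp
          · intro k _ hk
            rw [hrow k, if_neg hk, mul_zero, zero_mul]
          · intro h
            exact absurd (Finset.mem_univ _) h
        · push Not at hb
          left
          refine det_eq_zero_of_row_eq_zero i fun k => ?_
          simp only [gmat, Matrix.of_apply, if_neg (ha k), if_neg (hb k), sub_zero]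

/-- **Unimodularity.** -/
theorem det_gmat {ι : Type} [Fintype ι] [DecidableEq ι] (a b β : ι → V)
    (hβ : Function.Injective β) :
    (gmat a b β).det = 0 ∨ (gmat a b β).det = 1 ∨ (gmat a b β).det = -1 := by
  let σ : Fin (Fintype.card ι) ≃ ι := (Fintype.equivFin ι).symm
  have h1 : (gmat a b β).submatrix σ σ = gmat (a ∘ σ) (b ∘ σ) (β ∘ σ) := rfl
  rw [← det_submatrix_equiv_self σ, h1]
  exact det_fin _ _ _ _ (hβ.comp σ.injective)

/-- A nonzero determinant gives a forest. -/
theorem isForest_of_det {ι : Type} [Fintype ι] [DecidableEq ι] (a b β : ι → V)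
    (h : (gmat a b β).det ≠ 0) : IsForest a b := by
  have h1 : ((gmat a b β).map (Int.castRingHom ℚ)).det ≠ 0 := by
    have h2 := (Int.castRingHom ℚ).map_det (gmat a b β)
    rw [RingHom.mapMatrix_apply] at h2
    rw [← h2]
    simpa using h
  have h2 : LinearIndependent ℚ ((gmat a b β).map (Int.castRingHom ℚ)).row := by
    rw [Matrix.linearIndependent_rows_iff_isUnit, Matrix.isUnit_iff_isUnit_det]
    exact isUnit_iff_ne_zero.2 h1
  let f : (V →₀ ℚ) →ₗ[ℚ] (ι → ℚ) :=
    { toFun := fun x e' => x (β e')
      map_add' := fun _ _ => rfl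
      map_smul' := fun _ _ => rfl }
  have h3 : LinearIndependent ℚ (fun e => row (a e) (b e)) := by
    apply LinearIndependent.of_comp f
    convert h2 using 1
    funext e e'
    show (row (a e) (b e)) (β e') = _
    simp only [row, Finsupp.coe_sub, Pi.sub_apply, Finsupp.single_apply, Matrix.row, Matrix.map_apply,
      gmat, Matrix.of_apply, map_sub]
    congr 1 <;> split_ifs <;> simp
  refine isForest_of_indep a b fun F => ?_
  exact h3.comp (fun e : F => (e : ι)) Subtype.val_injective

omit [DecidableEq V] in
/-- The vectors of a forest are linearly independent. -/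
theorem indep_of_isForest {ι : Type} (a b : ι → V) (h : IsForest a b) (c : ι →₀ ℚ)
    (hc : c.sum (fun e x => x • row (a e) (b e)) = 0) : c = 0 := by
  classical
  by_contra hne
  obtain ⟨e, he, hab, v, hv, h1⟩ := h c.support (Finsupp.support_nonempty_iff.2 hne)
  have h2 := DFunLike.congr_fun hc v
  rw [Finsupp.sum, Finset.sum_apply', Finset.sum_eq_single e] at h2
  · apply Finsupp.mem_support_iff.1 he
    simp only [row, Finsupp.coe_smul, Finsupp.coe_sub, Pi.smul_apply, Pi.sub_apply, smul_eq_mul,
      Finsupp.coe_zero, Pi.zero_apply] at h2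
    rcases hv with rfl | rfl
    · rw [Finsupp.single_eq_same, Finsupp.single_eq_of_ne (by first | exact hab | exact hab.symm)] at h2
      simpa using h2
    · rw [Finsupp.single_eq_same, Finsupp.single_eq_of_ne (by first | exact hab | exact hab.symm)] at h2
      simpa using h2
  · intro e' he' hne'
    obtain ⟨h3, h4⟩ := h1 e' he' hne'
    simp only [row, Finsupp.coe_smul, Finsupp.coe_sub, Pi.smul_apply, Pi.sub_apply, smul_eq_mul]
    rw [Finsupp.single_eq_of_ne (by first | exact h3 | exact h3.symm),
      Finsupp.single_eq_of_ne (by first | exact h4 | exact h4.symm)]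
    simp
  · intro hn
    exact absurd he hn

/-- The determinant with one column deleted is nonzero exactly for forests. -/
theorem det_ne_zero_iff {ι : Type} [Fintype ι] [DecidableEq ι] (a b : ι → V) (v₀ : V)
    (β : ι ≃ {v : V // v ≠ v₀}) :
    (gmat a b fun e => (β e : V)).det ≠ 0 ↔ IsForest a b := by
  refine ⟨isForest_of_det a b _, fun h h0 => ?_⟩
  have h1 : ((gmat a b fun e => (β e : V)).map (Int.castRingHom ℚ)).det = 0 := by
    have h2 := (Int.castRingHom ℚ).map_det (gmat a b fun e => (β e : V))
    rw [RingHom.mapMatrix_apply] at h2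
    rw [← h2, h0, map_zero]
  rw [← Matrix.exists_vecMul_eq_zero_iff] at h1
  obtain ⟨c, hc, hc0⟩ := h1
  apply hc
  have hcol : ∀ w, w ≠ v₀ → ∑ e, c e * row (a e) (b e) w = 0 := by
    intro w hw
    have h3 := congrFun hc0 (β.symm ⟨w, hw⟩)
    rw [Matrix.vecMul, dotProduct, Pi.zero_apply] at h3
    rw [← h3]
    refine Finset.sum_congr rfl fun e _ => ?_
    congr 1
    simp only [row, Finsupp.coe_sub, Pi.sub_apply, Finsupp.single_apply, Matrix.map_apply,
      gmat, Matrix.of_apply, map_sub, Equiv.apply_symm_apply]
    congr 1 <;> split_ifs <;> simp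
  let c' : ι →₀ ℚ := Finsupp.equivFunOnFinite.symm c
  have hc' : c' = 0 := by
    apply indep_of_isForest a b h
    have hsum : c'.sum (fun e x => x • row (a e) (b e)) = ∑ e, c e • row (a e) (b e) := by
      rw [Finsupp.sum_fintype]
      · rfl
      · intro i; rw [zero_smul]
    rw [hsum]
    -- all coordinates but one vanish, and the sum of the coordinates is zero
    let s : (V →₀ ℚ) →ₗ[ℚ] ℚ := Finsupp.lsum ℚ (fun _ => LinearMap.id)
    have hs : ∀ x y : V, s (row x y) = 0 := by
      intro x y
      show (Finsupp.lsum ℚ (fun _ : V => (LinearMap.id : ℚ →ₗ[ℚ] ℚ))) (row x y) = 0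
      rw [row, map_sub, Finsupp.lsum_single, Finsupp.lsum_single]
      exact sub_self _
    have h4 : ∀ w, w ≠ v₀ → (∑ e, c e • row (a e) (b e)) w = 0 := by
      intro w hw
      rw [Finset.sum_apply', ← hcol w hw]
      rfl
    have h5 : ∑ e, c e • row (a e) (b e) =
        Finsupp.single v₀ ((∑ e, c e • row (a e) (b e)) v₀) := by
      ext w
      by_cases hw : w = v₀
      · subst hw; simp
      · rw [h4 w hw, Finsupp.single_eq_of_ne (by first | exact hw | exact fun h => hw h.symm)]
    have h6 : s (∑ e, c e • row (a e) (b e)) = 0 := by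
      rw [map_sum]
      refine Finset.sum_eq_zero fun e _ => ?_
      rw [map_smul, hs, smul_zero]
    rw [h5] at h6
    have h7 : (∑ e, c e • row (a e) (b e)) v₀ = 0 := by
      have h8 : s (Finsupp.single v₀ ((∑ e, c e • row (a e) (b e)) v₀)) =
          (∑ e, c e • row (a e) (b e)) v₀ := by
        show (Finsupp.lsum ℚ (fun _ : V => (LinearMap.id : ℚ →ₗ[ℚ] ℚ))) _ = _
        rw [Finsupp.lsum_single]
        rfl
      rw [← h8]
      exact h6
    rw [h5, h7, Finsupp.single_zero]
  funext e
  have := DFunLike.congr_fun hc' e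
  exact this

end Pool.Agent.Q172.LT
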